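import Mathlib

/-!
# Compactness of the unitary group
-/

namespace Pool.Agent.Lib.MP_7cef9e_pr

lemma compactSpace_unitaryGroup (n : ℕ) : CompactSpace (Matrix.unitaryGroup (Fin n) ℂ) := by
  have h1 : IsCompact (Set.pi Set.univ fun _ : Fin n =>
      Set.pi Set.univ fun _ : Fin n => Metric.closedBall (0 : ℂ) 1) :=
    isCompact_univ_pi fun _ => isCompact_univ_pi fun _ => isCompact_closedBall 0 1
  have h2 : IsCompact (Matrix.unitaryGroup (Fin n) ℂ : Set (Matrix (Fin n) (Fin n) ℂ)) := by
    have h3 : IsClosed (Matrix.unitaryGroup (Fin n) ℂ : Set (Matrix (Fin n) (Fin n) ℂ)) :=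
      isClosed_unitary
    refine IsCompact.of_isClosed_subset (X := Matrix (Fin n) (Fin n) ℂ) h1 h3 ?_
    intro U hU i _ j _
    simpa using entry_norm_bound_of_unitary hU i j
  exact isCompact_iff_compactSpace.mp h2

end Pool.Agent.Lib.MP_7cef9e_pr
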