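import Pool.Agent.Lib.MP_7cef9e_pr.Compact

/-!
# Definitions: rank one spherical integrals, R-transform, semicircle law
-/

namespace Pool.Agent.Lib.MP_7cef9e_pr

open MeasureTheory Filter Topology

/-- The Borel sigma-algebra on `U(n)`. -/
noncomputable instance measurableSpaceU (n : ℕ) :
    MeasurableSpace (Matrix.unitaryGroup (Fin n) ℂ) := borel _

instance borelSpaceU (n : ℕ) : BorelSpace (Matrix.unitaryGroup (Fin n) ℂ) := ⟨rfl⟩

instance compactSpaceU (n : ℕ) : CompactSpace (Matrix.unitaryGroup (Fin n) ℂ) :=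
  compactSpace_unitaryGroup n

/-- The Haar probability measure on `U(n)` (Haar measure giving mass one to the whole group). -/
noncomputable def haarU (n : ℕ) : Measure (Matrix.unitaryGroup (Fin n) ℂ) := Measure.haarMeasure ⊤

/-- `I_n(z, E) = ∫ exp (n tr (U D U^* E)) dm_n(U)` with `D = diag (z, 0, ..., 0)`. -/
noncomputable def sphericalIntegral (n : ℕ) (E : Matrix (Fin n) (Fin n) ℂ) (z : ℂ) : ℂ :=
  ∫ U, Complex.exp (n * Matrix.trace ((U : Matrix (Fin n) (Fin n) ℂ) *
    Matrix.diagonal (fun i : Fin n => if i.val = 0 then z else 0) *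
    star (U : Matrix (Fin n) (Fin n) ℂ) * E)) ∂(haarU n)

/-- `f_n(z) = ∂_z I_n(z, E) / (n I_n(z, E))`. -/
noncomputable def logDerivI (n : ℕ) (E : Matrix (Fin n) (Fin n) ℂ) (z : ℂ) : ℂ :=
  deriv (sphericalIntegral n E) z / (n * sphericalIntegral n E z)

/-- The Cauchy transform `G_μ(w) = ∫ dμ(x) / (w - x)`. -/
noncomputable def cauchyTransform (μ : Measure ℝ) (w : ℂ) : ℂ := ∫ x : ℝ, 1 / (w - x) ∂μ

/-- `R` is (near `0`) the R-transform of `μ`: analytic at `0` with `G_μ (R z + 1/z) = z`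
for all small `z ≠ 0`. -/
def IsRTransform (μ : Measure ℝ) (R : ℂ → ℂ) : Prop :=
  AnalyticAt ℂ R 0 ∧ ∀ᶠ z in 𝓝[≠] (0 : ℂ), cauchyTransform μ (R z + 1 / z) = z

/-- Free infinite divisibility of a compactly supported law, through the linearisation
`R_{ν ⊞ ... ⊞ ν} = k R_ν` of free additive convolution. -/
def IsFreelyInfDiv (μ : Measure ℝ) : Prop :=
  ∀ k : ℕ, 1 ≤ k → ∃ ν : Measure ℝ, IsProbabilityMeasure ν ∧ IsCompact ν.support ∧
    ∃ R : ℂ → ℂ, IsRTransform ν R ∧ IsRTransform μ fun z => k * R z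

/-- The standard semicircle law, with density `√(4 - x^2) / (2 π)` on `[-2, 2]`. -/
noncomputable def semicircle : Measure ℝ :=
  volume.withDensity fun x => ENNReal.ofReal (Real.sqrt (4 - x ^ 2) / (2 * Real.pi))

end Pool.Agent.Lib.MP_7cef9e_pr
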