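import Pool.Agent.Lib.MP_7cef9e_pr.Defs

/-!
# The resolvent identity for the first column of a Haar unitary
-/

namespace Pool.Agent.Lib.MP_7cef9e_pr

open MeasureTheory Filter Topology Matrix

instance secondCountableU (n : ℕ) : SecondCountableTopology (Matrix.unitaryGroup (Fin n) ℂ) := by
  have : SecondCountableTopology (Matrix (Fin n) (Fin n) ℂ) :=
    inferInstanceAs (SecondCountableTopology (Fin n → Fin n → ℂ))
  exact TopologicalSpace.Subtype.secondCountableTopology _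

instance isHaar_haarU (n : ℕ) : (haarU n).IsHaarMeasure := by
  unfold haarU; infer_instance

instance isProb_haarU (n : ℕ) : IsProbabilityMeasure (haarU n) :=
  ⟨by unfold haarU; exact Measure.haarMeasure_self⟩

instance isMulRightInvariant_haarU (n : ℕ) : (haarU n).IsMulRightInvariant := by
  refine ⟨fun g => ?_⟩
  have : IsProbabilityMeasure (Measure.map (· * g) (haarU n)) :=
    Measure.isProbabilityMeasure_map (measurable_mul_const g).aemeasurable
  have : (Measure.map (· * g) (haarU n)).IsHaarMeasure := Measure.isHaarMeasure_map_mul_right _ g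
  exact Measure.isHaarMeasure_eq_of_isProbabilityMeasure _ _

variable {n : ℕ}

/-- squared Euclidean norm -/
noncomputable def nsq (v : Fin n → ℂ) : ℝ := ∑ i, ‖v i‖ ^ 2

lemma nsq_eq_dot (v : Fin n → ℂ) : (nsq v : ℂ) = star v ⬝ᵥ v := by
  simp only [nsq, dotProduct, Pi.star_apply, Complex.ofReal_sum]
  refine Finset.sum_congr rfl fun i _ => ?_
  rw [RCLike.star_def, Complex.conj_mul']; simp

lemma nsq_mulVec (U : Matrix.unitaryGroup (Fin n) ℂ) (v : Fin n → ℂ) :
    nsq ((U : Matrix (Fin n) (Fin n) ℂ) *ᵥ v) = nsq v := by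
  have h : star (U : Matrix (Fin n) (Fin n) ℂ) * U = 1 := U.2.1
  apply Complex.ofReal_injective
  rw [nsq_eq_dot, nsq_eq_dot, star_mulVec, ← dotProduct_mulVec, mulVec_mulVec,
    ← star_eq_conjTranspose, h, one_mulVec]

lemma integral_gauss (b : Fin n → ℂ) (hb : ∀ i, 0 < (b i).re) :
    ∫ v : Fin n → ℂ, Complex.exp (-∑ i, b i * (‖v i‖ : ℂ) ^ 2) = ∏ i, (Real.pi / b i) := by
  have : ∀ v : Fin n → ℂ, Complex.exp (-∑ i, b i * (‖v i‖ : ℂ) ^ 2) =
      ∏ i, Complex.exp (-b i * (‖v i‖ : ℂ) ^ 2) := by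
    intro v
    rw [← Complex.exp_sum, ← Finset.sum_neg_distrib]; simp
  simp only [this]
  rw [integral_fintype_prod_volume_eq_prod (fun i (w : ℂ) => Complex.exp (-b i * (‖w‖ : ℂ) ^ 2))]
  refine Finset.prod_congr rfl fun i _ => ?_
  rw [GaussianFourier.integral_cexp_neg_mul_sq_norm (hb i)]
  simp

lemma integrable_gauss {c : ℝ} (hc : 0 < c) :
    Integrable fun v : Fin n → ℂ => Real.exp (-c * nsq v) := by
  have : ∀ v : Fin n → ℂ, Real.exp (-c * nsq v) = ∏ i, Real.exp (-c * ‖v i‖ ^ 2) := by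
    intro v
    rw [← Real.exp_sum, nsq, Finset.mul_sum]
  simp only [this]
  refine Integrable.fintype_prod (f := fun _ (w : ℂ) => Real.exp (-c * ‖w‖ ^ 2)) fun _ => ?_
  have := (GaussianFourier.integrable_cexp_neg_mul_sq_norm_add (V := ℂ) (b := c) (by simpa using hc)
    0 0).norm
  refine this.congr (Eventually.of_forall fun w => ?_)
  simp only [zero_mul, add_zero, Complex.norm_exp]
  congr 1
  norm_cast

lemma integral_comp_mulVec (U : Matrix.unitaryGroup (Fin n) ℂ) {φ : (Fin n → ℂ) → ℂ}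
    (hφ : Continuous φ) :
    ∫ v, φ ((U : Matrix (Fin n) (Fin n) ℂ) *ᵥ v) = ∫ v, φ v := by
  let f : (Fin n → ℂ) →ₗ[ℝ] (Fin n → ℂ) :=
    (Matrix.mulVecLin (U : Matrix (Fin n) (Fin n) ℂ)).restrictScalars ℝ
  let g : (Fin n → ℂ) →ₗ[ℝ] (Fin n → ℂ) :=
    (Matrix.mulVecLin (star (U : Matrix (Fin n) (Fin n) ℂ))).restrictScalars ℝ
  have hgf : g ∘ₗ f = LinearMap.id := by
    have h : star (U : Matrix (Fin n) (Fin n) ℂ) * U = 1 := U.2.1
    refine LinearMap.ext fun v => ?_
    simp [f, g, h]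
  have hdet : LinearMap.det f ≠ 0 := by
    intro h0
    have := congrArg LinearMap.det hgf
    rw [LinearMap.det_comp, h0, mul_zero, LinearMap.det_id] at this
    exact zero_ne_one this
  have hmap := Measure.map_linearMap_addHaar_eq_smul_addHaar (volume : Measure (Fin n → ℂ)) hdet
  have hfc : Continuous f := f.continuous_of_finiteDimensional
  have key : ∀ ψ : (Fin n → ℂ) → ℂ, Continuous ψ →
      ∫ v, ψ ((U : Matrix (Fin n) (Fin n) ℂ) *ᵥ v) =
        (ENNReal.ofReal |(LinearMap.det f)⁻¹|).toReal • ∫ v, ψ v := by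
    intro ψ hψ
    rw [← integral_smul_measure, ← hmap, integral_map hfc.aemeasurable hψ.aestronglyMeasurable]
    rfl
  have h1 := key (fun v => Complex.exp (-(nsq v : ℂ))) (by unfold nsq; fun_prop)
  simp only [nsq_mulVec] at h1
  have h2 : ∫ v : Fin n → ℂ, Complex.exp (-(nsq v : ℂ)) ≠ 0 := by
    have := integral_gauss (n := n) (fun _ => 1) (fun _ => by simp)
    simp only [one_mul] at this
    simp only [nsq, Complex.ofReal_sum, Complex.ofReal_pow]
    rw [this]
    exact Finset.prod_ne_zero_iff.mpr fun i _ => by simp [Real.pi_ne_zero]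
  have h3 : (ENNReal.ofReal |(LinearMap.det f)⁻¹|).toReal = 1 := by
    rw [Complex.real_smul] at h1
    have := mul_right_cancel₀ h2 (h1.symm.trans (one_mul _).symm)
    exact_mod_cast this
  rw [key φ hφ, h3, one_smul]

lemma exists_unitary_col (v : Fin (n + 1) → ℂ) :
    ∃ V : Matrix.unitaryGroup (Fin (n + 1)) ℂ, ∀ i,
      v i = (Real.sqrt (nsq v) : ℂ) * (V : Matrix (Fin (n + 1)) (Fin (n + 1)) ℂ) i 0 := by
  by_cases hv : v = 0
  · exact ⟨1, fun i => by simp [hv, nsq]⟩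
  let w : EuclideanSpace ℂ (Fin (n + 1)) := WithLp.toLp 2 v
  have hw : ‖w‖ = Real.sqrt (nsq v) := by rw [EuclideanSpace.norm_eq]; rfl
  have hw0 : ‖w‖ ≠ 0 := by
    rw [norm_ne_zero_iff]
    intro h
    exact hv (by simpa [w] using congrArg WithLp.ofLp h)
  let u : EuclideanSpace ℂ (Fin (n + 1)) := ((‖w‖ : ℂ)⁻¹) • w
  have hu : ‖u‖ = 1 := by
    simp only [u, norm_smul, norm_inv, Complex.norm_real, norm_norm]
    exact inv_mul_cancel₀ hw0
  have ho : Orthonormal ℂ (({0} : Set (Fin (n + 1))).domRestrict fun _ => u) := by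
    refine ⟨fun _ => hu, fun i j hij => ?_⟩
    exact absurd (Subsingleton.elim i j) hij
  obtain ⟨b, hb⟩ := ho.exists_orthonormalBasis_extension_of_card_eq (by simp)
  refine ⟨⟨_, (EuclideanSpace.basisFun (Fin (n + 1)) ℂ).toMatrix_orthonormalBasis_mem_unitary b⟩,
    fun i => ?_⟩
  have h0 : b 0 = u := hb 0 rfl
  have hw0' : (‖w‖ : ℂ) ≠ 0 := by exact_mod_cast hw0
  simp only [Module.Basis.toMatrix_apply, h0, OrthonormalBasis.coe_toBasis_repr_apply,
    EuclideanSpace.basisFun_repr, ← hw, u, PiLp.smul_apply, smul_eq_mul]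
  rw [← mul_assoc, mul_inv_cancel₀ hw0', one_mul]

/-- the quadratic form evaluated at the first column -/
noncomputable def XX (lam : Fin (n + 1) → ℝ) (U : Matrix.unitaryGroup (Fin (n + 1)) ℂ) : ℝ :=
  ∑ i, lam i * ‖(U : Matrix (Fin (n + 1)) (Fin (n + 1)) ℂ) i 0‖ ^ 2

lemma continuous_entry (i j : Fin n) :
    Continuous fun U : Matrix.unitaryGroup (Fin n) ℂ => (U : Matrix (Fin n) (Fin n) ℂ) i j :=
  continuous_subtype_val.matrix_elem i j

lemma continuous_XX (lam : Fin (n + 1) → ℝ) : Continuous (XX lam) := by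
  unfold XX
  exact continuous_finsetSum _ fun i _ => continuous_const.mul ((continuous_entry i 0).norm.pow 2)

lemma abs_quad_le {lam : Fin n → ℝ} {Λ : ℝ} (h : ∀ i, |lam i| ≤ Λ) (v : Fin n → ℂ) :
    |∑ i, lam i * ‖v i‖ ^ 2| ≤ Λ * nsq v := by
  refine (Finset.abs_sum_le_sum_abs _ _).trans ?_
  rw [nsq, Finset.mul_sum]
  refine Finset.sum_le_sum fun i _ => ?_
  rw [abs_mul, abs_of_nonneg (by positivity : 0 ≤ ‖v i‖ ^ 2)]
  gcongr; exact h i

lemma nsq_col (U : Matrix.unitaryGroup (Fin (n + 1)) ℂ) :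
    nsq (fun i => (U : Matrix (Fin (n + 1)) (Fin (n + 1)) ℂ) i 0) = 1 := by
  have := nsq_mulVec U (Pi.single 0 1)
  rw [mulVec_single_one] at this
  refine Eq.trans rfl (this.trans ?_)
  simp [nsq, Pi.single_apply, apply_ite]

lemma abs_XX_le {lam : Fin (n + 1) → ℝ} {Λ : ℝ} (h : ∀ i, |lam i| ≤ Λ)
    (U : Matrix.unitaryGroup (Fin (n + 1)) ℂ) : |XX lam U| ≤ Λ := by
  have := abs_quad_le h (fun i => (U : Matrix (Fin (n + 1)) (Fin (n + 1)) ℂ) i 0)
  rwa [nsq_col, mul_one] at this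

lemma re_one_sub_pos {x : ℂ} {a Λ : ℝ} (ha : |a| ≤ Λ) :
    1 - ‖x‖ * Λ ≤ (1 - x * a).re := by
  have h1 : (x * a).re ≤ ‖x‖ * Λ := by
    refine (Complex.re_le_norm _).trans ?_
    rw [norm_mul, Complex.norm_real, Real.norm_eq_abs]
    gcongr
  simp only [Complex.sub_re, Complex.one_re]
  linarith

/-- the key identity -/
lemma integral_resolvent_pow_aux {lam : Fin (n + 1) → ℝ} {Λ : ℝ} (h : ∀ i, |lam i| ≤ Λ) {x : ℂ}
    (hx : ‖x‖ * Λ < 1) :
    ∫ U, ((Real.pi : ℂ) / (1 - x * XX lam U)) ^ (n + 1) ∂(haarU (n + 1)) =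
      ∏ i, ((Real.pi : ℂ) / (1 - x * lam i)) := by
  have hc : 0 < 1 - ‖x‖ * Λ := by linarith
  let φ : (Fin (n + 1) → ℂ) → ℂ := fun v => Complex.exp (-∑ i, (1 - x * lam i) * (‖v i‖ : ℂ) ^ 2)
  have hφc : Continuous φ := by simp only [φ]; fun_prop
  have hφ : ∀ v, φ v = Complex.exp (-(nsq v : ℂ) + x * (∑ i, lam i * ‖v i‖ ^ 2 : ℝ)) := by
    intro v
    simp only [φ, nsq]
    congr 1
    push_cast
    rw [Finset.mul_sum, ← Finset.sum_neg_distrib, ← Finset.sum_neg_distrib, ← Finset.sum_add_distrib]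
    exact Finset.sum_congr rfl fun i _ => by ring
  have hφn : ∀ v, ‖φ v‖ ≤ Real.exp (-(1 - ‖x‖ * Λ) * nsq v) := by
    intro v
    rw [hφ, Complex.norm_exp]
    refine Real.exp_le_exp.mpr ?_
    have h1 : (x * (∑ i, lam i * ‖v i‖ ^ 2 : ℝ)).re ≤ ‖x‖ * (Λ * nsq v) := by
      refine (Complex.re_le_norm _).trans ?_
      rw [norm_mul, Complex.norm_real, Real.norm_eq_abs]
      gcongr
      exact abs_quad_le h v
    simp only [Complex.add_re, Complex.neg_re, Complex.ofReal_re]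
    linarith
  let ψ : Matrix.unitaryGroup (Fin (n + 1)) ℂ → (Fin (n + 1) → ℂ) → ℂ := fun U v =>
    Complex.exp (-∑ i, (1 - x * XX lam U) * (‖v i‖ : ℂ) ^ 2)
  have hψ : ∀ U v, ψ U v = φ fun i =>
      (Real.sqrt (nsq v) : ℂ) * (U : Matrix (Fin (n + 1)) (Fin (n + 1)) ℂ) i 0 := by
    intro U v
    have hv : 0 ≤ nsq v := Finset.sum_nonneg fun i _ => by positivity
    have e1 : ∀ i, ‖(Real.sqrt (nsq v) : ℂ) * (U : Matrix (Fin (n + 1)) (Fin (n + 1)) ℂ) i 0‖ ^ 2 =
        nsq v * ‖(U : Matrix (Fin (n + 1)) (Fin (n + 1)) ℂ) i 0‖ ^ 2 := by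
      intro i
      rw [norm_mul, mul_pow, Complex.norm_real, Real.norm_eq_abs, sq_abs, Real.sq_sqrt hv]
    have e2 : nsq (fun i =>
        (Real.sqrt (nsq v) : ℂ) * (U : Matrix (Fin (n + 1)) (Fin (n + 1)) ℂ) i 0) = nsq v := by
      have := nsq_col U
      rw [nsq] at this
      rw [nsq]
      simp only [e1, ← Finset.mul_sum, this, mul_one]
    have e3 : ∑ i, lam i * ‖(Real.sqrt (nsq v) : ℂ) *
        (U : Matrix (Fin (n + 1)) (Fin (n + 1)) ℂ) i 0‖ ^ 2 = nsq v * XX lam U := by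
      simp only [e1, XX, Finset.mul_sum]
      exact Finset.sum_congr rfl fun i _ => by ring
    rw [hφ, e2, e3]
    simp only [ψ, ← Finset.mul_sum, nsq]
    congr 1
    push_cast
    ring
  have hint : ∀ F : Matrix.unitaryGroup (Fin (n + 1)) ℂ → (Fin (n + 1) → ℂ) → ℂ,
      Continuous (Function.uncurry F) → (∀ U v, ‖F U v‖ ≤ Real.exp (-(1 - ‖x‖ * Λ) * nsq v)) →
      Integrable (Function.uncurry F) ((haarU (n + 1)).prod volume) := by
    intro F hF hb
    have := (integrable_const (μ := haarU (n + 1)) (1 : ℝ)).mul_prod (integrable_gauss (n := n + 1) hc)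
    refine this.mono' hF.aestronglyMeasurable (Eventually.of_forall fun p => ?_)
    rw [one_mul]; exact hb p.1 p.2
  have hmv : Continuous fun p : Matrix.unitaryGroup (Fin (n + 1)) ℂ × (Fin (n + 1) → ℂ) =>
      (p.1 : Matrix (Fin (n + 1)) (Fin (n + 1)) ℂ) *ᵥ p.2 :=
    (continuous_subtype_val.comp continuous_fst).matrix_mulVec continuous_snd
  have i1 := hint (fun U v => φ ((U : Matrix (Fin (n + 1)) (Fin (n + 1)) ℂ) *ᵥ v)) (hφc.comp hmv)
    (fun U v => by have := hφn ((U : Matrix (Fin (n + 1)) (Fin (n + 1)) ℂ) *ᵥ v); rwa [nsq_mulVec] at this)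
  have i2 := hint ψ (by
      have := continuous_XX lam
      simp only [ψ, Function.uncurry_def]; fun_prop)
    (fun U v => by
      simp only [ψ, ← Finset.mul_sum, Complex.norm_exp]
      refine Real.exp_le_exp.mpr ?_
      have e : (∑ i, (‖v i‖ : ℂ) ^ 2) = (nsq v : ℂ) := by simp [nsq]
      have hv : 0 ≤ nsq v := Finset.sum_nonneg fun i _ => by positivity
      have := re_one_sub_pos (x := x) (abs_XX_le h U)
      rw [e, Complex.neg_re, Complex.re_mul_ofReal, neg_mul]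
      gcongr)
  calc ∫ U, ((Real.pi : ℂ) / (1 - x * XX lam U)) ^ (n + 1) ∂(haarU (n + 1))
      = ∫ U, (∫ v, ψ U v) ∂(haarU (n + 1)) := by
        refine integral_congr_ae (Eventually.of_forall fun U => ?_)
        simp only [ψ]
        rw [integral_gauss (fun _ => 1 - x * XX lam U)
          (fun _ => hc.trans_le (re_one_sub_pos (x := x) (abs_XX_le h U)))]
        simp [div_pow]
    _ = ∫ v, ∫ U, ψ U v ∂(haarU (n + 1)) := integral_integral_swap i2
    _ = ∫ v, ∫ U, φ ((U : Matrix (Fin (n + 1)) (Fin (n + 1)) ℂ) *ᵥ v) ∂(haarU (n + 1)) := by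
        refine integral_congr_ae (Eventually.of_forall fun v => ?_)
        obtain ⟨V, hV⟩ := exists_unitary_col v
        simp only
        rw [← integral_mul_right_eq_self (fun U => ψ U v) V]
        refine integral_congr_ae (Eventually.of_forall fun U => ?_)
        simp only [hψ]
        congr 1
        funext i
        simp only [Submonoid.coe_mul, mul_apply, mulVec, dotProduct, Finset.mul_sum]
        refine Finset.sum_congr rfl fun j _ => ?_
        rw [hV j]; ring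
    _ = ∫ U, (∫ v, φ ((U : Matrix (Fin (n + 1)) (Fin (n + 1)) ℂ) *ᵥ v)) ∂(haarU (n + 1)) :=
        (integral_integral_swap i1).symm
    _ = ∫ v, φ v := by simp only [integral_comp_mulVec _ hφc]; simp
    _ = _ := integral_gauss _ fun i => hc.trans_le (re_one_sub_pos (h i))

lemma integral_resolvent_pow {lam : Fin (n + 1) → ℝ} {Λ : ℝ} (h : ∀ i, |lam i| ≤ Λ) {w : ℂ}
    (hw : Λ < ‖w‖) :
    ∫ U, ((w - XX lam U) ^ (n + 1))⁻¹ ∂(haarU (n + 1)) = ∏ i, (w - lam i)⁻¹ := by
  have hΛ : 0 ≤ Λ := (abs_nonneg _).trans (h 0)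
  have hw0 : w ≠ 0 := by
    rintro rfl
    rw [norm_zero] at hw; linarith
  have hx : ‖w⁻¹‖ * Λ < 1 := by
    rw [norm_inv, inv_mul_lt_iff₀ (by linarith), mul_one]; exact hw
  have key := integral_resolvent_pow_aux h hx
  have e : ∀ a : ℂ, (Real.pi : ℂ) / (1 - w⁻¹ * a) = (Real.pi * w) * (w - a)⁻¹ := by
    intro a
    have : 1 - w⁻¹ * a = w⁻¹ * (w - a) := by field_simp
    rw [this, div_eq_mul_inv, mul_inv, inv_inv, mul_assoc]
  have hc : (Real.pi * w : ℂ) ≠ 0 := mul_ne_zero (by simp [Real.pi_ne_zero]) hw0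
  generalize (Real.pi * w : ℂ) = c at e hc
  simp only [e, mul_pow c, Finset.prod_mul_distrib, Finset.prod_const,
    Finset.card_univ, Fintype.card_fin, integral_const_mul, inv_pow] at key
  exact mul_left_cancel₀ (pow_ne_zero _ hc) key

lemma trace_eq (lam : Fin (n + 1) → ℝ) (z : ℂ) (U : Matrix.unitaryGroup (Fin (n + 1)) ℂ) :
    Matrix.trace ((U : Matrix (Fin (n + 1)) (Fin (n + 1)) ℂ) *
      Matrix.diagonal (fun i : Fin (n + 1) => if i.val = 0 then z else 0) *
      star (U : Matrix (Fin (n + 1)) (Fin (n + 1)) ℂ) * Matrix.diagonal fun i => (lam i : ℂ)) =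
      z * XX lam U := by
  simp only [Matrix.trace, diag_apply, mul_diagonal, XX, Complex.ofReal_sum, Finset.mul_sum]
  refine Finset.sum_congr rfl fun i _ => ?_
  rw [mul_apply, Fin.sum_univ_succ]
  simp only [mul_diagonal, Fin.val_zero, if_true, Fin.val_succ, Nat.succ_ne_zero, if_false,
    mul_zero, zero_mul, Finset.sum_const_zero, add_zero, star_apply, RCLike.star_def]
  push_cast
  rw [← Complex.mul_conj']
  ring

lemma sphericalIntegral_eq (lam : Fin (n + 1) → ℝ) (z : ℂ) :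
    sphericalIntegral (n + 1) (Matrix.diagonal fun i => (lam i : ℂ)) z =
      ∫ U, Complex.exp ((((n + 1 : ℕ) : ℂ) * z) * XX lam U) ∂(haarU (n + 1)) := by
  unfold sphericalIntegral
  simp only [trace_eq]
  simp only [mul_assoc]

end Pool.Agent.Lib.MP_7cef9e_pr
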