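import Pool.Agent.Lib.MP_7cef9e_pr.Haar

/-!
# The rank one Harish-Chandra-Itzykson-Zuber formula
-/

namespace Pool.Agent.Lib.MP_7cef9e_pr

open MeasureTheory Filter Topology Matrix

lemma circ_pow (t a : ℂ) {R : ℝ} (ha : ‖a‖ < R) (k : ℕ) :
    (∮ w in C(0, R), Complex.exp (t * w) * ((w - a) ^ (k + 1))⁻¹) =
      2 * Real.pi * Complex.I * (t ^ k / k.factorial * Complex.exp (t * a)) := by
  have hR : 0 ≤ R := (norm_nonneg a).trans ha.le
  have hne : ∀ w ∈ Metric.sphere (0 : ℂ) R, w - a ≠ 0 := by
    intro w hw h0
    rw [mem_sphere_zero_iff_norm, sub_eq_zero.mp h0] at hw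
    exact ha.ne hw
  have hci : ∀ k : ℕ, CircleIntegrable (fun w => Complex.exp (t * w) * ((w - a) ^ k)⁻¹) 0 R := by
    intro k
    refine ContinuousOn.circleIntegrable hR ?_
    exact ContinuousOn.mul (by fun_prop) (ContinuousOn.inv₀ (by fun_prop)
      fun w hw => pow_ne_zero _ (hne w hw))
  induction k with
  | zero =>
    have := DifferentiableOn.circleIntegral_sub_inv_smul (f := fun w => Complex.exp (t * w))
      (c := 0) (R := R) (w := a) (by fun_prop) (by simpa using ha)
    simp only [smul_eq_mul] at this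
    simp only [zero_add, pow_one, pow_zero, Nat.factorial_zero, Nat.cast_one, div_one, one_mul,
      ← this]
    simp only [mul_comm]
  | succ k ih =>
    have h0 := circleIntegral.integral_eq_zero_of_hasDerivWithinAt (c := 0) (R := R)
      (f := fun w => Complex.exp (t * w) * ((w - a) ^ (k + 1))⁻¹)
      (f' := fun w => t * (Complex.exp (t * w) * ((w - a) ^ (k + 1))⁻¹) -
        (k + 1) * (Complex.exp (t * w) * ((w - a) ^ (k + 1 + 1))⁻¹)) hR (by
      intro w hw
      have h1 : HasDerivAt (fun w => Complex.exp (t * w)) (Complex.exp (t * w) * t) w := by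
        simpa using ((hasDerivAt_id w).const_mul t).cexp
      have h2 := (((hasDerivAt_id w).sub_const a).fun_pow (k + 1)).fun_inv
        (pow_ne_zero _ (hne w hw))
      refine ((h1.fun_mul h2).congr_deriv ?_).hasDerivWithinAt
      have := hne w hw
      simp only [id, Nat.add_sub_cancel]
      push_cast
      field_simp
      ring)
    have c1 : CircleIntegrable (fun w => t * (Complex.exp (t * w) * ((w - a) ^ (k + 1))⁻¹)) 0 R :=
      (hci _).const_smul (a := t)
    have c2 : CircleIntegrable
        (fun w => (k + 1 : ℂ) * (Complex.exp (t * w) * ((w - a) ^ (k + 1 + 1))⁻¹)) 0 R :=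
      (hci _).const_smul (a := (k + 1 : ℂ))
    rw [circleIntegral.integral_sub c1 c2, circleIntegral.integral_const_mul, circleIntegral.integral_const_mul,
      ih, sub_eq_zero] at h0
    have hk1 : ((k : ℂ) + 1) ≠ 0 := by exact_mod_cast k.succ_ne_zero
    have hk : ((k.factorial : ℕ) : ℂ) ≠ 0 := by exact_mod_cast k.factorial_ne_zero
    apply mul_left_cancel₀ hk1
    rw [← h0, Nat.factorial_succ]
    push_cast
    field_simp
    ring

lemma partial_fraction {ι : Type*} [DecidableEq ι] {s : Finset ι} {v : ι → ℂ}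
    (hv : Set.InjOn v s) (hs : s.Nonempty) {w : ℂ} (hw : ∀ i ∈ s, w ≠ v i) :
    ∏ i ∈ s, (w - v i)⁻¹ = ∑ i ∈ s, Lagrange.nodalWeight s v i * (w - v i)⁻¹ := by
  have h := Lagrange.eval_interpolate_not_at_node (s := s) (v := v) 1 hw
  rw [Lagrange.interpolate_one hv hs, Polynomial.eval_one, Lagrange.eval_nodal] at h
  simp only [Pi.one_apply, mul_one] at h
  rw [Finset.prod_inv_distrib]
  exact (eq_inv_of_mul_eq_one_right h.symm).symm

variable {n : ℕ}

lemma hciz {lam : Fin (n + 1) → ℝ} (hinj : Function.Injective lam) (t : ℂ) :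
    t ^ n / n.factorial * ∫ U, Complex.exp (t * XX lam U) ∂(haarU (n + 1)) =
      ∑ i, Lagrange.nodalWeight Finset.univ (fun i => (lam i : ℂ)) i * Complex.exp (t * lam i) := by
  set Λ : ℝ := ∑ i, |lam i| with hΛ
  have h : ∀ i, |lam i| ≤ Λ := fun i =>
    Finset.single_le_sum (f := fun i => |lam i|) (fun i _ => abs_nonneg _) (Finset.mem_univ i)
  have hΛ0 : 0 ≤ Λ := (abs_nonneg _).trans (h 0)
  set R := Λ + 1 with hR
  have hR0 : 0 ≤ R := by linarith
  have h2 : (2 * Real.pi * Complex.I : ℂ) ≠ 0 := by simp [Real.pi_ne_zero]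
  apply mul_left_cancel₀ h2
  have hX : ∀ U, ‖((XX lam U : ℝ) : ℂ)‖ < R := fun U => by
    rw [Complex.norm_real, Real.norm_eq_abs]; linarith [abs_XX_le h U]
  have hl : ∀ i, ‖((lam i : ℝ) : ℂ)‖ < R := fun i => by
    rw [Complex.norm_real, Real.norm_eq_abs]; linarith [h i]
  have hcm : ∀ θ, ‖circleMap 0 R θ‖ = R := fun θ => by simp [abs_of_nonneg hR0]
  let F : ℝ → Matrix.unitaryGroup (Fin (n + 1)) ℂ → ℂ := fun θ U =>
    (circleMap 0 R θ * Complex.I) • (Complex.exp (t * circleMap 0 R θ) *
      ((circleMap 0 R θ - XX lam U) ^ (n + 1))⁻¹)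
  have hFc : Continuous (Function.uncurry F) := by
    have h1 := continuous_XX lam
    have h3 := continuous_circleMap 0 R
    have h4 : Continuous fun p : ℝ × Matrix.unitaryGroup (Fin (n + 1)) ℂ =>
        ((circleMap 0 R p.1 - XX lam p.2) ^ (n + 1))⁻¹ := by
      refine Continuous.inv₀ (by fun_prop) fun p => pow_ne_zero _ fun h0 => ?_
      have := hX p.2
      rw [← sub_eq_zero.mp h0, hcm] at this
      exact lt_irrefl _ this
    have h5 : Continuous fun p : ℝ × Matrix.unitaryGroup (Fin (n + 1)) ℂ =>
        circleMap 0 R p.1 * Complex.I := by fun_prop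
    have h6 : Continuous fun p : ℝ × Matrix.unitaryGroup (Fin (n + 1)) ℂ =>
        Complex.exp (t * circleMap 0 R p.1) := by fun_prop
    exact h5.smul (h6.mul h4)
  have hFi : Integrable (Function.uncurry F)
      ((volume.restrict (Set.uIoc 0 (2 * Real.pi))).prod (haarU (n + 1))) := by
    have := (hFc.continuousOn.integrableOn_compact (μ := volume.prod (haarU (n + 1)))
      ((isCompact_uIcc (a := 0) (b := 2 * Real.pi)).prod isCompact_univ)).mono_set
      (Set.prod_mono Set.uIoc_subset_uIcc subset_rfl)
    rw [IntegrableOn, ← Measure.prod_restrict, Measure.restrict_univ] at this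
    exact this
  calc 2 * Real.pi * Complex.I * (t ^ n / n.factorial *
        ∫ U, Complex.exp (t * XX lam U) ∂(haarU (n + 1)))
      = ∫ U, (∫ θ in (0 : ℝ)..2 * Real.pi, F θ U) ∂(haarU (n + 1)) := by
        rw [← integral_const_mul, ← integral_const_mul]
        refine integral_congr_ae (Eventually.of_forall fun U => ?_)
        simp only
        rw [← circ_pow t _ (hX U) n, circleIntegral]
        simp only [deriv_circleMap, F]
    _ = ∫ θ in (0 : ℝ)..2 * Real.pi, ∫ U, F θ U ∂(haarU (n + 1)) :=
        (intervalIntegral_integral_swap hFi).symm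
    _ = ∮ w in C(0, R), ∑ i, Lagrange.nodalWeight Finset.univ (fun i => (lam i : ℂ)) i *
          (Complex.exp (t * w) * ((w - lam i) ^ (0 + 1))⁻¹) := by
        rw [circleIntegral]
        refine intervalIntegral.integral_congr fun θ _ => ?_
        simp only [F, deriv_circleMap, smul_eq_mul, integral_const_mul]
        rw [integral_resolvent_pow h (by rw [hcm]; linarith), partial_fraction
          (v := fun i => (lam i : ℂ)) (fun i _ j _ hij => hinj (Complex.ofReal_injective hij))
          Finset.univ_nonempty, Finset.mul_sum]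
        · congr 1
          exact Finset.sum_congr rfl fun i _ => by ring
        · intro i _ h0
          have := hl i
          rw [← h0, hcm] at this
          exact lt_irrefl _ this
    _ = _ := by
        rw [circleIntegral.integral_fun_sum, Finset.mul_sum]
        · refine Finset.sum_congr rfl fun i _ => ?_
          rw [circleIntegral.integral_const_mul, circ_pow t _ (hl i) 0]
          simp; ring
        · intro i _
          refine ContinuousOn.circleIntegrable hR0 (continuousOn_const.mul
            (ContinuousOn.mul (by fun_prop) (ContinuousOn.inv₀ (by fun_prop)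
            fun w hw => pow_ne_zero _ fun h0 => ?_)))
          have := hl i
          rw [← sub_eq_zero.mp h0, mem_sphere_zero_iff_norm.mp hw] at this
          exact lt_irrefl _ this

end Pool.Agent.Lib.MP_7cef9e_pr
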