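import Pool.Agent.Lib.MP_7cef9e_pr.Semicircle

/-!
# Quantiles of the semicircle law
-/

namespace Pool.Agent.Lib.MP_7cef9e_pr

open MeasureTheory Filter Topology Real

/-- upper tail function -/
noncomputable def TT (x : ℝ) : ℝ := ∫ u in x..2, rho u

lemma hasDerivAt_TT (x : ℝ) : HasDerivAt TT (-rho x) x :=
  intervalIntegral.integral_hasDerivAt_left (continuous_rho.intervalIntegrable _ _)
    (continuous_rho.stronglyMeasurableAtFilter _ _) continuous_rho.continuousAt

lemma continuous_TT : Continuous TT :=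
  continuous_iff_continuousAt.mpr fun x => (hasDerivAt_TT x).continuousAt

lemma TT_two : TT 2 = 0 := by simp [TT]
lemma TT_neg_two : TT (-2) = 1 := integral_rho

lemma strictAntiOn_TT : StrictAntiOn TT (Set.Icc (-2) 2) := by
  refine strictAntiOn_of_deriv_neg (convex_Icc _ _) continuous_TT.continuousOn fun x hx => ?_
  rw [interior_Icc] at hx
  rw [(hasDerivAt_TT x).deriv]
  exact neg_lt_zero.mpr (rho_pos hx)

lemma TT_sub (a b : ℝ) : TT a - TT b = ∫ u in a..b, rho u := by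
  unfold TT
  rw [← intervalIntegral.integral_add_adjacent_intervals (b := b)
    (continuous_rho.intervalIntegrable a b) (continuous_rho.intervalIntegrable b 2)]
  ring

/-- quantile function -/
noncomputable def qq (u : ℝ) : ℝ := Function.invFunOn TT (Set.Icc (-2) 2) u

lemma qq_spec {u : ℝ} (hu : u ∈ Set.Icc (0 : ℝ) 1) : qq u ∈ Set.Icc (-2 : ℝ) 2 ∧ TT (qq u) = u := by
  refine Function.invFunOn_pos ?_
  have := intermediate_value_Icc' (by norm_num : (-2 : ℝ) ≤ 2) continuous_TT.continuousOn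
  rw [TT_two, TT_neg_two] at this
  exact this hu

lemma qq_zero : qq 0 = 2 := by
  have h := qq_spec (u := 0) (by simp)
  exact strictAntiOn_TT.injOn h.1 (by norm_num) (h.2.trans TT_two.symm)

lemma qq_one : qq 1 = -2 := by
  have h := qq_spec (u := 1) (by simp)
  exact strictAntiOn_TT.injOn h.1 (by norm_num) (h.2.trans TT_neg_two.symm)

lemma qq_lt {u v : ℝ} (hu : u ∈ Set.Icc (0 : ℝ) 1) (hv : v ∈ Set.Icc (0 : ℝ) 1) (h : u < v) :
    qq v < qq u := by
  rw [← strictAntiOn_TT.lt_iff_gt (qq_spec hu).1 (qq_spec hv).1, (qq_spec hu).2, (qq_spec hv).2]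
  exact h

lemma qq_le {u v : ℝ} (hu : u ∈ Set.Icc (0 : ℝ) 1) (hv : v ∈ Set.Icc (0 : ℝ) 1) (h : u ≤ v) :
    qq v ≤ qq u := by
  rcases h.eq_or_lt with rfl | h
  · exact le_rfl
  · exact (qq_lt hu hv h).le

lemma TT_sq_le {x : ℝ} (hx : x ∈ Set.Icc (-2 : ℝ) 2) : TT x ^ 2 ≤ (2 - x) ^ 3 := by
  have h0 : 0 ≤ 2 - x := by linarith [hx.2]
  have h1 : ‖TT x‖ ≤ √(2 - x) * |2 - x| := by
    refine intervalIntegral.norm_integral_le_of_norm_le_const fun u hu => ?_
    rw [Set.uIoc_of_le hx.2] at hu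
    rw [Real.norm_of_nonneg (rho_nonneg u), rho, div_le_iff₀ (by positivity)]
    have : √(4 - u ^ 2) ≤ √(2 ^ 2 * (2 - x)) :=
      Real.sqrt_le_sqrt (by nlinarith [hu.1, hu.2, hx.1])
    rw [Real.sqrt_mul (by norm_num), Real.sqrt_sq (by norm_num)] at this
    nlinarith [pi_gt_three, Real.sqrt_nonneg (2 - x)]
  rw [abs_of_nonneg h0, Real.norm_eq_abs] at h1
  calc TT x ^ 2 = |TT x| ^ 2 := (sq_abs _).symm
    _ ≤ (√(2 - x) * (2 - x)) ^ 2 := by gcongr
    _ = _ := by rw [mul_pow, Real.sq_sqrt h0]; ring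

lemma sq_le_two_sub_qq {u : ℝ} (hu : u ∈ Set.Icc (0 : ℝ) 1) : u ^ 2 ≤ (2 - qq u) ^ 3 := by
  have := TT_sq_le (qq_spec hu).1
  rwa [(qq_spec hu).2] at this

lemma div_mem {N k : ℕ} (hk : k ≤ N) : (k : ℝ) / N ∈ Set.Icc (0 : ℝ) 1 :=
  ⟨by positivity, div_le_one_of_le₀ (by exact_mod_cast hk) (by positivity)⟩

lemma sum_inv_le (n : ℕ) :
    ∑ j ∈ Finset.range n, (2 - qq (((j + 1 : ℕ) : ℝ) / (n + 1 : ℕ)))⁻¹ ≤ 3 * (n + 1 : ℕ) := by
  set N : ℕ := n + 1 with hN
  have hN0 : (0 : ℝ) < N := by rw [hN]; positivity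
  let y : ℕ → ℝ := fun k => ((k : ℝ) / N) ^ ((3 : ℕ)⁻¹ : ℝ)
  have hy0 : ∀ k, 0 ≤ y k := fun k => by positivity
  have hy3 : ∀ k, y k ^ 3 = (k : ℝ) / N := fun k =>
    Real.rpow_inv_natCast_pow (by positivity) (by norm_num)
  have hstep : ∀ j ∈ Finset.range n, (2 - qq (((j + 1 : ℕ) : ℝ) / N))⁻¹ ≤
      3 * N * (y (j + 1) - y j) := by
    intro j hj
    have hj' : j + 1 ≤ N := by have := Finset.mem_range.mp hj; omega
    have h1 := sq_le_two_sub_qq (div_mem hj')
    have hq := (qq_spec (div_mem hj')).1.2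
    have hpos : 0 < y (j + 1) := by positivity
    have h2 : y (j + 1) ^ 2 ≤ 2 - qq (((j + 1 : ℕ) : ℝ) / N) := by
      refine le_of_pow_le_pow_left₀ (n := 3) (by norm_num) (by linarith) ?_
      rw [← pow_mul, mul_comm, pow_mul, hy3]; exact h1
    have hle : y j ≤ y (j + 1) := by
      refine le_of_pow_le_pow_left₀ (n := 3) (by norm_num) (hy0 _) ?_
      rw [hy3, hy3]; gcongr; omega
    have h3 : y (j + 1) ^ 3 - y j ^ 3 = 1 / N := by rw [hy3, hy3]; push_cast; ring
    have h4 : 1 / (N : ℝ) ≤ 3 * y (j + 1) ^ 2 * (y (j + 1) - y j) := by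
      rw [← h3]
      have := hy0 j
      nlinarith [mul_nonneg (sq_nonneg (y (j + 1) - y j)) (by positivity : 0 ≤ 2 * y (j + 1) + y j)]
    refine (inv_anti₀ (by positivity) h2).trans ?_
    rw [div_le_iff₀ hN0] at h4
    rw [inv_eq_one_div, div_le_iff₀ (by positivity)]
    linarith
  refine (Finset.sum_le_sum hstep).trans ?_
  rw [← Finset.mul_sum, Finset.sum_range_sub]
  have h1 : y n ≤ 1 := by
    refine le_of_pow_le_pow_left₀ (n := 3) (by norm_num) zero_le_one ?_
    rw [hy3, one_pow]; exact (div_mem (by omega)).2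
  have := hy0 0
  nlinarith

lemma gap_small {η : ℝ} (hη : 0 < η) : ∀ᶠ N : ℕ in atTop, ∀ k < N,
    qq ((k : ℝ) / N) - qq (((k + 1 : ℕ) : ℝ) / N) < η := by
  have hK : IsCompact ((Set.Icc (-2 : ℝ) 2 ×ˢ Set.Icc (-2 : ℝ) 2) ∩ {p | η ≤ p.2 - p.1}) :=
    (isCompact_Icc.prod isCompact_Icc).inter_right (isClosed_le continuous_const (by fun_prop))
  have hc := continuous_TT
  obtain ⟨m, hm, hm'⟩ := hK.exists_forall_le' (f := fun p => TT p.1 - TT p.2) (a := 0)
    (by fun_prop) (fun p hp => sub_pos.mpr (strictAntiOn_TT hp.1.1 hp.1.2 (by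
      have : η ≤ p.2 - p.1 := hp.2
      linarith)))
  filter_upwards [(tendsto_one_div_atTop_nhds_zero_nat (𝕜 := ℝ)).eventually (gt_mem_nhds hm)]
    with N hN k hk
  by_contra hcon
  have h1 := qq_spec (div_mem hk.le)
  have h2 := qq_spec (div_mem (show k + 1 ≤ N from hk))
  have := hm' (qq (((k + 1 : ℕ) : ℝ) / N), qq ((k : ℝ) / N)) ⟨⟨h2.1, h1.1⟩, not_lt.mp hcon⟩
  simp only [h1.2, h2.2] at this
  push_cast at this
  have e : ((k : ℝ) + 1) / N - k / N = 1 / N := by ring
  linarith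

lemma tendsto_empirical (φ : ℝ → ℝ) (hφ : Continuous φ) :
    Tendsto (fun N : ℕ => (N : ℝ)⁻¹ * ∑ i : Fin N, φ (qq ((i : ℝ) / N))) atTop
      (𝓝 (∫ x, φ x ∂semicircle)) := by
  rw [integral_semicircle, Metric.tendsto_nhds]
  intro ε hε
  obtain ⟨η, hη, hu⟩ := Metric.uniformContinuousOn_iff_le.mp
    ((isCompact_Icc (a := (-2 : ℝ)) (b := 2)).uniformContinuousOn_of_continuous hφ.continuousOn)
    (ε / 2) (by positivity)
  filter_upwards [gap_small hη, eventually_gt_atTop 0] with N hgap hN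
  have hN0 : (0 : ℝ) < N := by exact_mod_cast hN
  let a : ℕ → ℝ := fun k => qq ((k : ℝ) / N)
  have hc : Continuous fun x => rho x • φ x := continuous_rho.smul hφ
  have hsum := intervalIntegral.sum_integral_adjacent_intervals (a := a) (n := N) (μ := volume)
    (f := fun x => rho x • φ x) fun k _ => hc.intervalIntegrable _ _
  have ha0 : a 0 = 2 := by simp [a, qq_zero]
  have haN : a N = -2 := by simp [a, div_self hN0.ne', qq_one]
  rw [ha0, haN] at hsum
  rw [intervalIntegral.integral_symm, ← hsum, Fin.sum_univ_eq_sum_range (fun k => φ (a k)),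
    Finset.mul_sum, Real.dist_eq, sub_neg_eq_add, ← Finset.sum_add_distrib]
  have hstep : ∀ k ∈ Finset.range N,
      |(N : ℝ)⁻¹ * φ (a k) + ∫ x in a k..a (k + 1), rho x • φ x| ≤ ε / 2 * (N : ℝ)⁻¹ := by
    intro k hk
    have hk' := Finset.mem_range.mp hk
    have h1 := qq_spec (div_mem hk'.le)
    have h2 := qq_spec (div_mem (show k + 1 ≤ N from hk'))
    have hle : a (k + 1) ≤ a k := qq_le (div_mem hk'.le) (div_mem (show k + 1 ≤ N from hk'))
      (by gcongr; omega)
    have hmass : ∫ x in a (k + 1)..a k, rho x = (N : ℝ)⁻¹ := by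
      rw [← TT_sub, h1.2, h2.2]; push_cast; ring
    have e : (N : ℝ)⁻¹ * φ (a k) + ∫ x in a k..a (k + 1), rho x • φ x =
        ∫ x in a (k + 1)..a k, rho x * (φ (a k) - φ x) := by
      simp only [mul_sub, smul_eq_mul]
      have c1 : Continuous fun x => rho x * φ (a k) := continuous_rho.mul continuous_const
      have c2 : Continuous fun x => rho x * φ x := continuous_rho.mul hφ
      rw [intervalIntegral.integral_sub (c1.intervalIntegrable _ _)
        (c2.intervalIntegrable _ _), intervalIntegral.integral_mul_const, hmass,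
        intervalIntegral.integral_symm (a (k + 1))]
      ring
    rw [e, ← hmass, ← intervalIntegral.integral_const_mul, ← Real.norm_eq_abs]
    refine intervalIntegral.norm_integral_le_of_norm_le hle (Eventually.of_forall fun x hx => ?_)
      ((continuous_const.mul continuous_rho).intervalIntegrable _ _)
    rw [norm_mul, Real.norm_of_nonneg (rho_nonneg x), mul_comm]
    gcongr
    · exact rho_nonneg x
    · refine hu _ h1.1 x ⟨h2.1.1.trans hx.1.le, hx.2.trans h1.1.2⟩ ?_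
      have := hgap k hk'
      rw [Real.dist_eq, abs_of_nonneg (sub_nonneg.mpr hx.2)]
      linarith [hx.1]
  refine ((Finset.abs_sum_le_sum_abs _ _).trans (Finset.sum_le_sum hstep)).trans_lt ?_
  rw [Finset.sum_const, Finset.card_range, nsmul_eq_mul]
  field_simp
  linarith

end Pool.Agent.Lib.MP_7cef9e_pr
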