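import Pool.Agent.Lib.MP_7cef9e_pr.Triangle
import Pool.Agent.Lib.MP_7cef9e_pr.Quantile

/-!
# The limit of the logarithmic derivative far to the right
-/

namespace Pool.Agent.Lib.MP_7cef9e_pr

open MeasureTheory Filter Topology Complex

lemma logDerivI_eq {n : ℕ} {lam : Fin (n + 1 + 1) → ℝ} (hinj : Function.Injective lam) {z : ℂ}
    (hz : z ≠ 0) (hF : (∑ i, Lagrange.nodalWeight Finset.univ (fun i => (lam i : ℂ)) i *
      exp (((n + 1 + 1 : ℕ) : ℂ) * z * lam i)) ≠ 0) :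
    logDerivI (n + 1 + 1) (Matrix.diagonal fun i => (lam i : ℂ)) z =
      (∑ i, Lagrange.nodalWeight Finset.univ (fun i => (lam i : ℂ)) i *
        (exp (((n + 1 + 1 : ℕ) : ℂ) * z * lam i) * lam i)) /
      (∑ i, Lagrange.nodalWeight Finset.univ (fun i => (lam i : ℂ)) i *
        exp (((n + 1 + 1 : ℕ) : ℂ) * z * lam i)) - (n + 1 : ℕ) / ((n + 1 + 1 : ℕ) * z) := by
  set c := Lagrange.nodalWeight Finset.univ (fun i => (lam i : ℂ)) with hc
  set N : ℂ := ((n + 1 + 1 : ℕ) : ℂ) with hN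
  have hN0 : N ≠ 0 := by rw [hN]; exact Nat.cast_ne_zero.mpr (Nat.succ_ne_zero _)
  have hfac : (((n + 1).factorial : ℕ) : ℂ) ≠ 0 := by exact_mod_cast Nat.factorial_ne_zero _
  have hI : ∀ ζ : ℂ, ζ ≠ 0 → sphericalIntegral (n + 1 + 1) (Matrix.diagonal fun i => (lam i : ℂ)) ζ
      = (n + 1).factorial * (∑ i, c i * exp (N * ζ * lam i)) / (N * ζ) ^ (n + 1) := by
    intro ζ hζ
    rw [sphericalIntegral_eq, ← hN, hc, ← hciz hinj (N * ζ)]
    field_simp
  have hev : sphericalIntegral (n + 1 + 1) (Matrix.diagonal fun i => (lam i : ℂ)) =ᶠ[𝓝 z]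
      fun ζ => (n + 1).factorial * (∑ i, c i * exp (N * ζ * lam i)) / (N * ζ) ^ (n + 1) := by
    filter_upwards [isOpen_ne.mem_nhds hz] with ζ hζ using hI ζ hζ
  have hlin : HasDerivAt (fun ζ : ℂ => N * ζ) N z := by simpa using (hasDerivAt_id z).const_mul N
  have hd1 : HasDerivAt (fun ζ : ℂ => ∑ i, c i * exp (N * ζ * lam i))
      (N * ∑ i, c i * (exp (N * z * lam i) * lam i)) z := by
    rw [Finset.mul_sum]
    refine HasDerivAt.fun_sum fun i _ => ?_
    exact (((hlin.mul_const (lam i : ℂ)).cexp).const_mul (c i)).congr_deriv (by ring)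
  have hd := ((hd1.const_mul ((n + 1).factorial : ℂ)).fun_div (hlin.fun_pow (n + 1))
    (pow_ne_zero _ (mul_ne_zero hN0 hz))).deriv
  rw [logDerivI, hev.deriv_eq, hd, hI z hz, ← hN]
  simp only [Nat.add_sub_cancel]
  field_simp
  ring

/-- the eigenvalues: quantiles of the semicircle law -/
noncomputable def lamQ (N : ℕ) (i : Fin N) : ℝ := qq ((i : ℝ) / N)

lemma lamQ_mem (N : ℕ) (i : Fin N) : lamQ N i ∈ Set.Icc (-2 : ℝ) 2 :=
  (qq_spec (div_mem i.2.le)).1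

lemma lamQ_injective (N : ℕ) : Function.Injective (lamQ N) := by
  intro i j h
  have h1 := (qq_spec (div_mem i.2.le)).2
  have h2 := (qq_spec (div_mem j.2.le)).2
  unfold lamQ at h
  rw [h, h2] at h1
  have hN : (N : ℝ) ≠ 0 := by exact_mod_cast i.pos.ne'
  have := (div_left_inj' hN).mp h1
  exact Fin.ext (by exact_mod_cast this.symm)

lemma main_estimate {n : ℕ} (hn : 14 ≤ n) {z : ℂ} (hz : 12 ≤ z.re - |z.im|) :
    ‖logDerivI (n + 1 + 1) (Matrix.diagonal fun i => (lamQ (n + 1 + 1) i : ℂ)) z -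
      (2 - (n + 1 : ℕ) / ((n + 1 + 1 : ℕ) * z))‖ ≤ 32 / (n + 1 + 1 : ℕ) := by
  set N : ℕ := n + 1 + 1 with hN
  have hN16 : (16 : ℝ) ≤ N := by rw [hN]; exact_mod_cast (by omega : 16 ≤ n + 1 + 1)
  have hN0 : (0 : ℝ) < N := by linarith
  have hz0 : z ≠ 0 := by
    rintro rfl
    norm_num at hz
  have h0 : lamQ N 0 = 2 := by simp [lamQ, qq_zero]
  have hm1 : ((1 : ℕ) : ℝ) / N ∈ Set.Icc (0 : ℝ) 1 := div_mem (by omega)
  set l1 := qq (((1 : ℕ) : ℝ) / N) with hl1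
  have hl1lt : l1 < 2 := by
    rw [← qq_zero]; exact qq_lt (by simp) hm1 (by positivity)
  have hl1ge : -2 ≤ l1 := (qq_spec hm1).1.1
  have hsucc : ∀ j : Fin (n + 1), lamQ N j.succ ≤ l1 := fun j =>
    qq_le hm1 (div_mem j.succ.2.le) (by gcongr; simp)
  set b := (2 + l1) / 2 with hb
  set δ := (2 - l1) / 2 with hδ
  have hδ0 : 0 < δ := by linarith
  have hK : ∑ j : Fin (n + 1), (b - lamQ N j.succ)⁻¹ ≤ 6 * N := by
    have h1 := sum_inv_le (n + 1)
    rw [← Fin.sum_univ_eq_sum_range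
      (fun j => (2 - qq (((j + 1 : ℕ) : ℝ) / (n + 1 + 1 : ℕ)))⁻¹)] at h1
    calc _ ≤ ∑ j : Fin (n + 1), 2 * (2 - qq ((((j : ℕ) + 1 : ℕ) : ℝ) / (n + 1 + 1 : ℕ)))⁻¹ := by
          refine Finset.sum_le_sum fun j _ => ?_
          have h2 := hsucc j
          have e : lamQ N j.succ = qq ((((j : ℕ) + 1 : ℕ) : ℝ) / (n + 1 + 1 : ℕ)) := rfl
          rw [← e, ← div_eq_mul_inv, ← inv_div]
          exact inv_anti₀ (by linarith) (by linarith)
      _ ≤ _ := by rw [← Finset.mul_sum]; linarith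
  have hre : ((N : ℂ) * z).re = N * z.re := by simp
  have him : |((N : ℂ) * z).im| = N * |z.im| := by simp [abs_mul]
  have habs := abs_nonneg z.im
  have hδ3 : 1 ≤ 8 * δ ^ 3 * N ^ 2 := by
    have h1 := sq_le_two_sub_qq hm1
    rw [← hl1, Nat.cast_one, div_pow, one_pow, div_le_iff₀ (by positivity)] at h1
    calc (1 : ℝ) ≤ (2 - l1) ^ 3 * N ^ 2 := h1
      _ = _ := by rw [hδ]; ring
  have hη : Real.exp (-(lamQ N 0 - b) * (((N : ℂ) * z).re -
      ∑ j : Fin (n + 1), (b - lamQ N j.succ)⁻¹)) ≤ δ / N := by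
    have e1 : lamQ N 0 - b = δ := by rw [h0, hb, hδ]; ring
    have h1 : δ * (6 * N) ≤ δ * (((N : ℂ) * z).re - ∑ j : Fin (n + 1), (b - lamQ N j.succ)⁻¹) := by
      gcongr
      rw [hre]; nlinarith
    have h2 := Real.pow_div_factorial_le_exp (δ * (6 * N)) (by positivity) 5
    have h3 : 1 ≤ 64 * δ ^ 6 * N ^ 4 := by nlinarith
    rw [e1, neg_mul, Real.exp_neg]
    refine (inv_anti₀ (by positivity) (h2.trans (Real.exp_le_exp.mpr h1))).trans ?_
    rw [inv_div, div_le_div_iff₀ (by positivity) hN0]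
    have : (Nat.factorial 5 : ℝ) = 120 := by norm_num [Nat.factorial]
    rw [this]
    have h4 : δ * (δ * (6 * N)) ^ 5 = 7776 * (δ ^ 6 * N ^ 4) * N := by ring
    rw [h4]
    gcongr
    linarith
  obtain ⟨hF, hest⟩ := core_estimate (lamQ_injective N) (b := b) (t := (N : ℂ) * z)
    (by rw [h0]; linarith) (fun j => by linarith [hsucc j])
    (fun j => by linarith [(lamQ_mem N j.succ).1]) (by rw [hre, him]; nlinarith) hη (by
      rw [h0, mul_div_assoc', div_le_iff₀ hN0]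
      have : 2 - b = δ := by rw [hb, hδ]; ring
      rw [this]; nlinarith)
  rw [logDerivI_eq (lamQ_injective N) hz0 hF]
  rw [h0] at hest
  have e : ∀ A B : ℂ, A - B - (2 - B) = A - ((2 : ℝ) : ℂ) := fun A B => by push_cast; ring
  rw [e]
  refine hest.trans ?_
  rw [mul_div_assoc']
  gcongr
  linarith

lemma tendsto_logDerivI {z : ℂ} (hz : 12 ≤ z.re - |z.im|) :
    Tendsto (fun N => logDerivI N (Matrix.diagonal fun i => (lamQ N i : ℂ)) z) atTop
      (𝓝 (2 - 1 / z)) := by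
  rw [← tendsto_add_atTop_iff_nat 2]
  have h1 : Tendsto (fun n : ℕ => (32 : ℝ) / (n + 1 + 1 : ℕ)) atTop (𝓝 0) :=
    (tendsto_add_atTop_iff_nat 2).mpr (tendsto_const_div_atTop_nhds_zero_nat (32 : ℝ))
  have h2 : Tendsto (fun n : ℕ => logDerivI (n + 1 + 1)
      (Matrix.diagonal fun i => (lamQ (n + 1 + 1) i : ℂ)) z -
      (2 - (n + 1 : ℕ) / ((n + 1 + 1 : ℕ) * z))) atTop (𝓝 0) := by
    refine squeeze_zero_norm' ?_ h1
    filter_upwards [eventually_ge_atTop 14] with n hn using main_estimate hn hz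
  have h3 : Tendsto (fun n : ℕ => (1 : ℂ) / (n + 1 + 1 : ℕ)) atTop (𝓝 0) :=
    (tendsto_add_atTop_iff_nat 2).mpr (tendsto_one_div_atTop_nhds_zero_nat (𝕜 := ℂ))
  have h4 := h2.add (((h3.const_sub 1).div_const z).const_sub 2)
  rw [zero_add, sub_zero] at h4
  refine h4.congr fun n => ?_
  have : ((n + 1 + 1 : ℕ) : ℂ) ≠ 0 := by exact Nat.cast_ne_zero.mpr (Nat.succ_ne_zero _)
  have e : (1 - 1 / ((n + 1 + 1 : ℕ) : ℂ)) / z = (n + 1 : ℕ) / ((n + 1 + 1 : ℕ) * z) := by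
    rw [← div_div]
    congr 1
    field_simp
    push_cast; ring
  rw [e]; ring

end Pool.Agent.Lib.MP_7cef9e_pr
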