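import Mathlib

/-!
# Zero counting by the maximum principle, factorisation on a disc, Landau's lemma
-/

namespace Pool.Agent.Lib.MP_7cef9e_pr

open Metric Set Filter Topology

lemma count_aux {ι : Type*} (S : Finset ι) (ζ : ι → ℂ) {k : ℂ → ℂ} (hk : Differentiable ℂ k)
    {c : ℂ} {s B : ℝ} (hs : 0 < s) (hζ : ∀ i ∈ S, ‖ζ i - c‖ ≤ s)
    (hB : ∀ z, ‖z - c‖ = 3 * s → ‖(∏ i ∈ S, (z - ζ i)) * k z‖ ≤ B) {z : ℂ}
    (hz : ‖z - c‖ ≤ 3 * s) : (2 * s) ^ S.card * ‖k z‖ ≤ B := by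
  have hp : 0 < (2 * s) ^ S.card := by positivity
  have : ‖k z‖ ≤ B / (2 * s) ^ S.card := by
    refine Complex.norm_le_of_forall_mem_frontier_norm_le (U := ball c (3 * s)) isBounded_ball
      hk.diffContOnCl (fun w hw => ?_) ?_
    · rw [frontier_ball c (by positivity), mem_sphere_iff_norm] at hw
      rw [le_div_iff₀ hp, mul_comm]
      refine le_trans ?_ (hB w hw)
      rw [norm_mul, norm_prod]
      gcongr
      rw [← Finset.prod_const]
      refine Finset.prod_le_prod (fun _ _ => by positivity) fun i hi => ?_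
      have h1 := hζ i hi
      have h2 : ‖w - c‖ ≤ ‖w - ζ i‖ + ‖ζ i - c‖ := by
        simpa using norm_add_le (w - ζ i) (ζ i - c)
      linarith
    · rw [closure_ball c (by positivity), mem_closedBall_iff_norm]; exact hz
  rwa [le_div_iff₀ hp, mul_comm] at this

lemma norm_prod_le {ι : Type*} (S : Finset ι) (ζ : ι → ℂ) {c : ℂ} {s : ℝ}
    (hζ : ∀ i ∈ S, ‖ζ i - c‖ ≤ s) : ‖∏ i ∈ S, (c - ζ i)‖ ≤ s ^ S.card := by
  rw [norm_prod, ← Finset.prod_const]
  exact Finset.prod_le_prod (fun _ _ => norm_nonneg _) fun i hi => by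
    rw [norm_sub_rev]; exact hζ i hi

lemma count_le {ι : Type*} (S : Finset ι) (ζ : ι → ℂ) {k : ℂ → ℂ} (hk : Differentiable ℂ k)
    {c : ℂ} {s B : ℝ} (hs : 0 < s) (hζ : ∀ i ∈ S, ‖ζ i - c‖ ≤ s)
    (hB : ∀ z, ‖z - c‖ = 3 * s → ‖(∏ i ∈ S, (z - ζ i)) * k z‖ ≤ B) :
    2 ^ S.card * ‖(∏ i ∈ S, (c - ζ i)) * k c‖ ≤ B := by
  refine le_trans ?_ (count_aux S ζ hk hs hζ hB (z := c) (by simp; positivity))
  rw [norm_mul, mul_pow, mul_assoc]
  gcongr
  exact norm_prod_le S ζ hζ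

lemma le_of_two_pow_le_exp {N : ℕ} {A : ℝ} (h : (2 : ℝ) ^ N ≤ Real.exp A) : (N : ℝ) ≤ 2 * A := by
  have h1 := Real.log_le_log (by positivity) h
  rw [Real.log_pow, Real.log_exp] at h1
  have h2 := Real.log_two_gt_d9
  have h3 : (0 : ℝ) ≤ N := by positivity
  nlinarith

lemma exists_factor {h : ℂ → ℂ} (hh : Differentiable ℂ h) (h0 : h 0 = 1) {R : ℝ} (hR : 0 < R) :
    ∃ (N : ℕ) (ζ : ℕ → ℂ) (k : ℂ → ℂ), Differentiable ℂ k ∧ (∀ i ∈ Finset.range N, ‖ζ i‖ ≤ R) ∧
      (∀ z, h z = (∏ i ∈ Finset.range N, (z - ζ i)) * k z) ∧ ∀ z, ‖z‖ ≤ R → k z ≠ 0 := by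
  by_contra hcon
  push Not at hcon
  obtain ⟨B, hB⟩ := (isCompact_sphere (0 : ℂ) (3 * R)).exists_bound_of_continuousOn
    hh.continuous.continuousOn
  have key : ∀ N : ℕ, ∃ (ζ : ℕ → ℂ) (k : ℂ → ℂ), Differentiable ℂ k ∧
      (∀ i ∈ Finset.range N, ‖ζ i‖ ≤ R) ∧
      (∀ z, h z = (∏ i ∈ Finset.range N, (z - ζ i)) * k z) := by
    intro N
    induction N with
    | zero => exact ⟨fun _ => 0, h, hh, by simp, by simp⟩
    | succ N ih =>
      obtain ⟨ζ, k, hk, hζ, hf⟩ := ih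
      obtain ⟨a, ha, hka⟩ := hcon N ζ k hk hζ hf
      refine ⟨Function.update ζ N a, dslope k a, ?_, fun i hi => ?_, fun z => ?_⟩
      · rw [← differentiableOn_univ] at hk ⊢
        exact (Complex.differentiableOn_dslope univ_mem).mpr hk
      · rcases Finset.mem_range_succ_iff.mp hi |>.lt_or_eq with h1 | h1
        · rw [Function.update_of_ne h1.ne]; exact hζ i (Finset.mem_range.mpr h1)
        · subst h1; simpa using ha
      · rw [Finset.prod_range_succ, Function.update_self, hf z, mul_assoc]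
        have h1 : (z - a) * dslope k a z = k z := by
          have := sub_smul_dslope k a z
          simpa [hka] using this
        rw [h1]
        congr 1
        exact Finset.prod_congr rfl fun i hi => by
          rw [Function.update_of_ne (Finset.mem_range.mp hi).ne]
  obtain ⟨N, hN⟩ := pow_unbounded_of_one_lt B (one_lt_two (α := ℝ))
  obtain ⟨ζ, k, hk, hζ, hf⟩ := key N
  have := count_le (Finset.range N) ζ hk (c := 0) hR (by simpa using hζ) (B := B)
    (fun z hz => by rw [← hf]; exact hB z (by simpa using hz))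
  rw [← hf, h0] at this
  simp at this
  linarith

lemma landau {ι : Type*} (S : Finset ι) (ζ : ι → ℂ) {k : ℂ → ℂ} (hk : Differentiable ℂ k)
    {R A : ℝ} (hR : 0 < R) (hA : 0 < A) (hζ : ∀ i ∈ S, ‖ζ i‖ ≤ R)
    (hk0 : ∀ z, ‖z‖ ≤ R → k z ≠ 0) (h0 : (∏ i ∈ S, (0 - ζ i)) * k 0 = 1)
    (hB : ∀ z, ‖z‖ = 3 * R → ‖(∏ i ∈ S, (z - ζ i)) * k z‖ ≤ Real.exp A) :
    (S.card : ℝ) ≤ 2 * A ∧ DifferentiableOn ℂ (fun z => deriv k z / k z) (ball 0 R) ∧
    (∀ z, ‖z‖ ≤ R / 4 → ‖deriv k z / k z‖ ≤ 8 * A / R) ∧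
    ∀ z w, ‖z‖ ≤ R / 8 → ‖w‖ ≤ R / 8 →
      ‖deriv k z / k z - deriv k w / k w‖ ≤ 64 * A / R ^ 2 * ‖z - w‖ := by
  have hζ' : ∀ i ∈ S, ‖ζ i - 0‖ ≤ R := by simpa using hζ
  have hB' : ∀ z, ‖z - 0‖ = 3 * R → ‖(∏ i ∈ S, (z - ζ i)) * k z‖ ≤ Real.exp A := by
    simpa using hB
  have hc := count_le S ζ hk hR hζ' hB'
  rw [h0, norm_one, mul_one] at hc
  have hg : DifferentiableOn ℂ (fun z => deriv k z / k z) (ball 0 R) :=
    (hk.deriv.differentiableOn).div hk.differentiableOn fun z hz =>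
      hk0 z (mem_ball_zero_iff.mp hz).le
  obtain ⟨L, hL0, hL⟩ := hg.isExactOn_ball.with_val_at 0 0
  have hLd : DifferentiableOn ℂ L (ball 0 R) := fun z hz =>
    (hL z hz).differentiableAt.differentiableWithinAt
  have hexp : ∀ z ∈ ball (0 : ℂ) R, k z * Complex.exp (-L z) = k 0 := by
    intro z hz
    have hd : ∀ w ∈ ball (0 : ℂ) R, HasDerivAt (fun z => k z * Complex.exp (-L z)) 0 w := by
      intro w hw
      have h1 := (hk w).hasDerivAt.mul (hL w hw).neg.cexp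
      have h2 := hk0 w (mem_ball_zero_iff.mp hw).le
      refine h1.congr_deriv ?_
      simp only [Pi.neg_apply]
      field_simp
      ring
    have := (convex_ball (0 : ℂ) R).norm_image_sub_le_of_norm_hasDerivWithin_le (C := 0)
      (fun w hw => (hd w hw).hasDerivWithinAt) (by simp) (mem_ball_self hR) hz
    simpa [hL0, sub_eq_zero] using this
  have hre : MapsTo L (ball 0 R) {z | z.re ≤ A} := by
    intro z hz
    have h1 := count_aux S ζ hk hR hζ' hB' (z := z) (by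
      have := mem_ball_zero_iff.mp hz
      simp only [sub_zero]; linarith)
    have h2 : 1 ≤ R ^ S.card * ‖k 0‖ := by
      have := congrArg norm h0
      rw [norm_mul, norm_one] at this
      rw [← this]
      gcongr
      exact norm_prod_le S ζ hζ'
    rw [← hexp z hz, norm_mul, Complex.norm_exp, Complex.neg_re, Real.exp_neg, ← mul_assoc,
      ← div_eq_mul_inv, le_div_iff₀ (Real.exp_pos _), one_mul] at h2
    have h3 : R ^ S.card * ‖k z‖ ≤ (2 * R) ^ S.card * ‖k z‖ := by gcongr; linarith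
    exact Real.exp_le_exp.mp (h2.trans (h3.trans h1))
  have hLb : ∀ z, ‖z‖ ≤ R / 2 → ‖L z‖ ≤ 2 * A := by
    intro z hz
    refine (Complex.borelCaratheodory_zero hA hLd hre hR
      (mem_ball_zero_iff.mpr (by linarith)) hL0).trans ?_
    rw [div_le_iff₀ (by linarith)]
    gcongr
    linarith
  have hsub : ∀ (z : ℂ) (r : ℝ), ‖z‖ ≤ r → r ≤ R / 4 → closedBall z r ⊆ ball 0 R ∧
      ∀ w ∈ sphere z r, ‖w‖ ≤ 2 * r := by
    intro z r h1 h2
    have : ∀ w ∈ closedBall z r, ‖w‖ ≤ 2 * r := fun w hw => by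
      have h3 := mem_closedBall_iff_norm.mp hw
      have h4 : ‖w‖ ≤ ‖w - z‖ + ‖z‖ := by simpa using norm_add_le (w - z) z
      linarith
    exact ⟨fun w hw => mem_ball_zero_iff.mpr (by linarith [this w hw]),
      fun w hw => this w (sphere_subset_closedBall hw)⟩
  have hgb : ∀ z, ‖z‖ ≤ R / 4 → ‖deriv k z / k z‖ ≤ 8 * A / R := by
    intro z hz
    obtain ⟨h1, h2⟩ := hsub z (R / 4) hz le_rfl
    have := Complex.norm_deriv_le_of_forall_mem_sphere_norm_le (c := z) (R := R / 4) (C := 2 * A)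
      (by positivity) (hLd.diffContOnCl_ball h1) fun w hw => hLb w (by linarith [h2 w hw])
    rw [(hL z (mem_ball_zero_iff.mpr (by linarith))).deriv] at this
    refine this.trans (le_of_eq ?_)
    field_simp
    ring
  refine ⟨le_of_two_pow_le_exp hc, hg, hgb, fun z w hz hw => ?_⟩
  refine (convex_closedBall (0 : ℂ) (R / 8)).norm_image_sub_le_of_norm_deriv_le
    (f := fun z => deriv k z / k z) (fun x hx => hg.differentiableAt (isOpen_ball.mem_nhds
      (mem_ball_zero_iff.mpr (by linarith [mem_closedBall_zero_iff.mp hx])))) (fun x hx => ?_)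
    (mem_closedBall_zero_iff.mpr hw) (mem_closedBall_zero_iff.mpr hz)
  obtain ⟨h1, h2⟩ := hsub x (R / 8) (mem_closedBall_zero_iff.mp hx) (by linarith)
  refine (Complex.norm_deriv_le_of_forall_mem_sphere_norm_le (c := x) (R := R / 8)
    (C := 8 * A / R) (by positivity) (hg.diffContOnCl_ball h1)
    fun w hw => hgb w (by linarith [h2 w hw])).trans (le_of_eq ?_)
  field_simp
  ring

lemma logDeriv_factor {ι : Type*} (S : Finset ι) (ζ : ι → ℂ) {h k : ℂ → ℂ}
    (hk : Differentiable ℂ k) (hf : ∀ z, h z = (∏ i ∈ S, (z - ζ i)) * k z) {z : ℂ}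
    (hz : ∀ i ∈ S, z ≠ ζ i) (hkz : k z ≠ 0) :
    deriv h z / h z = ∑ i ∈ S, (z - ζ i)⁻¹ + deriv k z / k z := by
  have h1 : h = fun z => (∏ i ∈ S, (z - ζ i)) * k z := funext hf
  have h2 : ∀ i ∈ S, z - ζ i ≠ 0 := fun i hi => sub_ne_zero.mpr (hz i hi)
  rw [← logDeriv_apply, ← logDeriv_apply, h1,
    logDeriv_mul z (Finset.prod_ne_zero_iff.mpr h2) hkz (by fun_prop) (hk z)]
  congr 1
  rw [logDeriv_prod (f := fun i z => z - ζ i) h2 (fun i _ => by fun_prop)]
  refine Finset.sum_congr rfl fun i _ => ?_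
  simp [logDeriv_apply]

end Pool.Agent.Lib.MP_7cef9e_pr
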