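import Pool.Agent.Lib.MP_7cef9e_pr.Rig1

/-!
# Area integrals over discs: polar formula, mean value, the Cauchy kernel
-/

namespace Pool.Agent.Lib.MP_7cef9e_pr

open Metric Set Filter Topology MeasureTheory Real

lemma integral_polar {f : ℂ → ℂ} (hm : Measurable f) (hi : Integrable f) (c : ℂ) :
    ∫ z, f z = ∫ ρ in Ioi (0 : ℝ), (2 * π * ρ) • circleAverage f c ρ := by
  have hi' : Integrable fun z => f (c + z) := hi.comp_add_left c
  have hs : Continuous fun p : ℝ × ℝ => Complex.polarCoord.symm p := by
    simp only [Complex.polarCoord_symm_apply]; fun_prop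
  have hint : IntegrableOn (fun p : ℝ × ℝ => p.1 • f (c + Complex.polarCoord.symm p))
      polarCoord.target := by
    refine ⟨(measurable_fst.smul (hm.comp
      (continuous_const.add hs).measurable)).aestronglyMeasurable, ?_⟩
    have h1 := hi'.2
    unfold HasFiniteIntegral at h1 ⊢
    rw [← Complex.lintegral_comp_polarCoord_symm] at h1
    refine lt_of_eq_of_lt (setLIntegral_congr_fun polarCoord.open_target.measurableSet
      fun p hp => ?_) h1
    have : 0 < p.1 := hp.1
    simp only [enorm_smul, smul_eq_mul, Real.enorm_eq_ofReal this.le]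
  rw [← integral_add_left_eq_self f c, ← Complex.integral_comp_polarCoord_symm]
  rw [polarCoord_target, Measure.volume_eq_prod] at hint ⊢
  rw [setIntegral_prod _ hint]
  refine setIntegral_congr_fun measurableSet_Ioi fun ρ _ => ?_
  simp only
  rw [circleAverage_eq_integral_add (-π), smul_smul,
    intervalIntegral.integral_comp_add_right (fun θ => f (circleMap c ρ θ)),
    intervalIntegral.integral_of_le (by linarith [pi_pos]), integral_Ioc_eq_integral_Ioo,
    integral_smul]
  have e1 : 2 * π * ρ * (2 * π)⁻¹ = ρ := by field_simp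
  have e2 : 2 * π + -π = π := by ring
  rw [e1, e2, zero_add]
  congr 2
  funext θ
  simp [circleMap, Complex.exp_mul_I]

lemma integral_ball_polar {f : ℂ → ℂ} {c : ℂ} {r : ℝ} (hm : Measurable ((ball c r).indicator f))
    (hi : IntegrableOn f (ball c r)) :
    ∫ z in ball c r, f z = ∫ ρ in Ioo (0 : ℝ) r, (2 * π * ρ) • circleAverage f c ρ := by
  rw [← integral_indicator measurableSet_ball,
    integral_polar hm ((integrable_indicator_iff measurableSet_ball).mpr hi) c,
    ← Ioi_inter_Iio, ← setIntegral_indicator measurableSet_Iio]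
  refine setIntegral_congr_fun measurableSet_Ioi fun ρ (hρ : 0 < ρ) => ?_
  by_cases h : ρ < r
  · rw [indicator_of_mem (by exact h)]
    congr 1
    refine circleAverage_congr_sphere fun z hz => indicator_of_mem ?_ _
    rw [abs_of_pos hρ, mem_sphere] at hz
    rw [mem_ball, hz]; exact h
  · rw [indicator_of_notMem (by exact h)]
    rw [circleAverage_const_on_circle (a := 0), smul_zero]
    intro z hz
    refine indicator_of_notMem ?_ _
    rw [abs_of_pos hρ, mem_sphere] at hz
    rw [mem_ball, hz]; exact h

lemma integrableOn_ball_of_diff {G : ℂ → ℂ} {c : ℂ} {r R : ℝ} (hr : r < R)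
    (hG : DifferentiableOn ℂ G (ball c R)) : IntegrableOn G (ball c r) :=
  ((hG.continuousOn.mono (closedBall_subset_ball hr)).integrableOn_compact
    (isCompact_closedBall c r)).mono_set ball_subset_closedBall

lemma integral_ball_mean {G : ℂ → ℂ} {c : ℂ} {r R : ℝ} (h0 : 0 < r) (hr : r < R)
    (hG : DifferentiableOn ℂ G (ball c R)) : ∫ z in ball c r, G z = (π * r ^ 2) • G c := by
  classical
  rw [integral_ball_polar ?_ (integrableOn_ball_of_diff hr hG)]
  · rw [setIntegral_congr_fun measurableSet_Ioo (g := fun ρ => (2 * π * ρ) • G c) fun ρ hρ => by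
      simp only
      rw [DiffContOnCl.circleAverage (hG.diffContOnCl_ball (closedBall_subset_ball
        (by rw [abs_of_pos hρ.1]; exact hρ.2.trans hr)))]]
    rw [integral_smul_const, ← integral_Ioc_eq_integral_Ioo,
      ← intervalIntegral.integral_of_le h0.le, intervalIntegral.integral_const_mul, integral_id]
    congr 1; ring
  · rw [← piecewise_eq_indicator]
    exact (hG.continuousOn.mono (ball_subset_ball hr.le)).measurable_piecewise continuousOn_const
      measurableSet_ball

/-- truncated Cauchy kernel in absolute value -/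
noncomputable def sing (δ : ℝ) (a z : ℂ) : ℝ := (Iio δ).indicator (fun y => y⁻¹) ‖z - a‖

lemma sing_nonneg (δ : ℝ) (a z : ℂ) : 0 ≤ sing δ a z := by
  unfold sing indicator
  split_ifs <;> positivity

lemma norm_inv_le {δ : ℝ} (hδ : 0 < δ) (a z : ℂ) : ‖(z - a)⁻¹‖ ≤ δ⁻¹ + sing δ a z := by
  rw [norm_inv]
  unfold sing indicator
  split_ifs with h
  · have : 0 < δ⁻¹ := by positivity
    linarith
  · rw [add_zero]
    exact inv_anti₀ hδ (not_lt.mp h)

lemma sing_aux {δ : ℝ} : EqOn (fun y : ℝ => y ^ (Module.finrank ℝ ℂ - 1) •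
    (Iio δ).indicator (fun y => y⁻¹) y) ((Iio δ).indicator fun _ => (1 : ℝ)) (Ioi 0) := by
  intro y (hy : 0 < y)
  by_cases h : y < δ <;> simp [h, hy.ne']

lemma integrable_sing (δ : ℝ) (a : ℂ) : Integrable (sing δ a) := by
  have : Integrable fun z : ℂ => (Iio δ).indicator (fun y => y⁻¹) ‖z‖ := by
    rw [integrable_fun_norm_addHaar, integrableOn_congr_fun sing_aux measurableSet_Ioi,
      integrableOn_indicator_iff measurableSet_Iio, Iio_inter_Ioi]
    exact integrableOn_const (by simp)
  exact this.comp_sub_right a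

lemma integral_sing {δ : ℝ} (hδ : 0 < δ) (a : ℂ) : ∫ z, sing δ a z = 2 * π * δ := by
  unfold sing
  rw [integral_sub_right_eq_self (fun z : ℂ => (Iio δ).indicator (fun y => y⁻¹) ‖z‖) a,
    integral_fun_norm_addHaar, setIntegral_congr_fun measurableSet_Ioi sing_aux,
    setIntegral_indicator measurableSet_Iio, Ioi_inter_Iio]
  simp [Measure.real, Complex.volume_ball, hδ.le]
  ring

lemma integrableOn_inv (a c : ℂ) (r : ℝ) : IntegrableOn (fun z => (z - a)⁻¹) (ball c r) := by
  refine Integrable.mono' (g := fun z => (1 : ℝ)⁻¹ + sing 1 a z) ?_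
    (Measurable.aestronglyMeasurable (by fun_prop)) (ae_of_all _ (norm_inv_le one_pos a))
  exact (integrableOn_const measure_ball_lt_top.ne).add (integrable_sing 1 a).integrableOn

lemma integral_norm_inv_le (a c : ℂ) (r : ℝ) :
    ∫ z in ball c r, ‖(z - a)⁻¹‖ ≤ volume.real (ball c r) + 2 * π := by
  have h1 : IntegrableOn (fun _ : ℂ => (1 : ℝ)⁻¹) (ball c r) :=
    integrableOn_const measure_ball_lt_top.ne
  refine (integral_mono (integrableOn_inv a c r).norm
    (h1.add (integrable_sing 1 a).integrableOn) (norm_inv_le one_pos a)).trans ?_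
  simp only [Pi.add_apply]
  rw [integral_add h1 (integrable_sing 1 a).integrableOn]
  have h2 := setIntegral_le_integral (s := ball c r) (integrable_sing 1 a)
    (ae_of_all _ (sing_nonneg 1 a))
  rw [integral_sing one_pos] at h2
  simp at h2 ⊢
  linarith

lemma integrableOn_kernel (a c : ℂ) (r : ℝ) :
    IntegrableOn (fun z => (z - c) * (z - a)⁻¹) (ball c r) := by
  refine Integrable.bdd_mul (c := r) (integrableOn_inv a c r)
    (Measurable.aestronglyMeasurable (by fun_prop)) ?_
  filter_upwards [ae_restrict_mem measurableSet_ball] with z hz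
  exact (mem_ball_iff_norm.mp hz).le

lemma kernel_re_ge (a c : ℂ) {r : ℝ} (hr : 0 < r) :
    (if ‖a - c‖ < r / 2 then π * r ^ 2 / 2 else 0) ≤
      (∫ z in ball c r, (z - c) * (z - a)⁻¹).re := by
  rw [integral_ball_polar (Measurable.indicator (by fun_prop) measurableSet_ball)
    (integrableOn_kernel a c r)]
  have h1 : ∀ᵐ ρ ∂(volume.restrict (Ioo (0 : ℝ) r)),
      (2 * π * ρ) • circleAverage (fun z => (z - c) * (z - a)⁻¹) c ρ =
        (((Ioi ‖a - c‖).indicator (fun ρ => 2 * π * ρ) ρ : ℝ) : ℂ) := by
    filter_upwards [ae_restrict_mem measurableSet_Ioo,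
      ae_restrict_of_ae (compl_mem_ae_iff.mpr (measure_singleton ‖a - c‖))] with ρ hρ hne
    rcases lt_or_gt_of_ne (show ρ ≠ ‖a - c‖ from hne) with h | h
    · rw [indicator_of_notMem (by simpa using h.le), DiffContOnCl.circleAverage]
      · simp
      · refine DifferentiableOn.diffContOnCl ?_
        rw [abs_of_pos hρ.1, closure_ball c hρ.1.ne']
        refine DifferentiableOn.mul (by fun_prop) (DifferentiableOn.inv (by fun_prop) ?_)
        intro z hz hza
        rw [sub_eq_zero.mp hza, mem_closedBall_iff_norm] at hz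
        linarith
    · have := DiffContOnCl.circleAverage_smul_div (f := fun _ : ℂ => (1 : ℂ)) (c := c) (R := ρ)
        (w := a) diffContOnCl_const (by rw [abs_of_pos hρ.1, mem_ball_iff_norm]; exact h)
      simp only [smul_eq_mul, mul_one, div_eq_mul_inv] at this
      rw [this, indicator_of_mem (by exact h)]
      simp
  rw [integral_congr_ae h1, integral_complex_ofReal, Complex.ofReal_re]
  split_ifs with h
  · have hi : IntegrableOn (fun ρ : ℝ => 2 * π * ρ) (Ioo 0 r) :=
      ((continuous_const.mul continuous_id).integrableOn_Icc (a := 0) (b := r)).mono_set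
        Ioo_subset_Icc_self
    have h2 : ∫ ρ in Ioo 0 r, (Ioi (r / 2)).indicator (fun _ => π * r) ρ = π * r ^ 2 / 2 := by
      rw [setIntegral_indicator measurableSet_Ioi, Ioo_inter_Ioi, sup_eq_right.mpr (by linarith)]
      simp only [integral_const, MeasurableSet.univ, measureReal_restrict_apply, univ_inter,
        smul_eq_mul]
      rw [Real.volume_real_Ioo_of_le (by linarith)]
      ring
    rw [← h2]
    refine setIntegral_mono_on ((integrableOn_const (by simp)).indicator measurableSet_Ioi)
      (hi.indicator measurableSet_Ioi) measurableSet_Ioo fun ρ hρ => ?_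
    have := hρ.1
    have := pi_pos
    unfold indicator
    simp only [mem_Ioi]
    split_ifs with h3 h4 h5
    · nlinarith
    · linarith
    · positivity
    · exact le_rfl
  · refine setIntegral_nonneg measurableSet_Ioo fun ρ hρ => ?_
    have := hρ.1
    unfold indicator
    split_ifs <;> positivity

end Pool.Agent.Lib.MP_7cef9e_pr
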