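import Pool.Agent.Lib.MP_7cef9e_pr.Rig2

/-!
# From almost everywhere convergence to `L^1` convergence, local zero counting
-/

namespace Pool.Agent.Lib.MP_7cef9e_pr

open Metric Set Filter Topology MeasureTheory Real

variable {ι : Type*}

lemma integrableOn_sum (S : Finset ι) (ζ : ι → ℂ) (w : ℝ) (c : ℂ) (r : ℝ) :
    IntegrableOn (fun z => (w : ℂ) * ∑ i ∈ S, (z - ζ i)⁻¹) (ball c r) :=
  (integrable_finsetSum S fun i _ => integrableOn_inv (ζ i) c r).const_mul _

lemma l1_conv (S : ℕ → Finset ι) (ζ : ℕ → ι → ℂ) (w : ℕ → ℝ) (g : ℕ → ℂ → ℂ) {G : ℂ → ℂ}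
    {c : ℂ} {r R C : ℝ} (hr : r < R) (hw : ∀ n, 0 ≤ w n)
    (hg : ∀ n, DifferentiableOn ℂ (g n) (ball c R)) (hG : DifferentiableOn ℂ G (ball c R))
    (hb : ∀ n, ∀ z ∈ ball c r, ‖g n z‖ ≤ C) (hS : ∀ n, w n * (S n).card ≤ C)
    (hconv : ∀ᵐ z ∂(volume.restrict (ball c r)),
      Tendsto (fun n => (w n : ℂ) * ∑ i ∈ S n, (z - ζ n i)⁻¹ + g n z) atTop (𝓝 (G z))) :
    Tendsto (fun n => ∫ z in ball c r, ‖(w n : ℂ) * ∑ i ∈ S n, (z - ζ n i)⁻¹ + g n z - G z‖)
      atTop (𝓝 0) := by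
  have hC : 0 ≤ C := le_trans (mul_nonneg (hw 0) (Nat.cast_nonneg _)) (hS 0)
  obtain ⟨D, hD⟩ := (isCompact_closedBall c r).exists_bound_of_continuousOn
    (hG.continuousOn.mono (closedBall_subset_ball hr))
  set ψ : ℕ → ℂ → ℂ := fun n z => (w n : ℂ) * ∑ i ∈ S n, (z - ζ n i)⁻¹ + g n z - G z with hψ
  have hi : ∀ n, IntegrableOn (ψ n) (ball c r) := fun n =>
    ((integrableOn_sum (S n) (ζ n) (w n) c r).add (integrableOn_ball_of_diff hr (hg n))).sub
      (integrableOn_ball_of_diff hr hG)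
  refine tendsto_order.2 ⟨fun a ha => Eventually.of_forall fun n =>
    ha.trans_le (integral_nonneg fun z => norm_nonneg _), fun ε hε => ?_⟩
  have hpi := pi_pos
  set δ := ε / (4 * π * (C + 1)) with hδ
  have hδ0 : 0 < δ := by positivity
  set K := C * δ⁻¹ + C + |D| with hK
  have hK0 : 0 ≤ K := by positivity
  have hm : ∀ n, AEStronglyMeasurable (fun z => min ‖ψ n z‖ K) (volume.restrict (ball c r)) :=
    fun n => ((hi n).norm.aemeasurable.min aemeasurable_const).aestronglyMeasurable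
  have hbd : ∀ n, ∀ᵐ z ∂(volume.restrict (ball c r)), ‖min ‖ψ n z‖ K‖ ≤ K := fun n =>
    ae_of_all _ fun z => by
      rw [Real.norm_of_nonneg (le_min (norm_nonneg _) hK0)]; exact min_le_right _ _
  have hKi : IntegrableOn (fun _ : ℂ => K) (ball c r) := integrableOn_const measure_ball_lt_top.ne
  have h1 := tendsto_integral_of_dominated_convergence (f := fun _ => (0 : ℝ)) (fun _ => K) hm hKi
    hbd (by
      filter_upwards [hconv] with z hz
      have h2 := (tendsto_iff_norm_sub_tendsto_zero.mp hz).min (tendsto_const_nhds (x := K))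
      rwa [min_eq_left hK0] at h2)
  rw [integral_zero] at h1
  filter_upwards [h1.eventually (gt_mem_nhds (half_pos hε))] with n hn
  have hsi : Integrable fun z => w n * ∑ i ∈ S n, sing δ (ζ n i) z :=
    (integrable_finsetSum _ fun i _ => integrable_sing δ (ζ n i)).const_mul _
  have hs0 : ∀ z, 0 ≤ w n * ∑ i ∈ S n, sing δ (ζ n i) z := fun z =>
    mul_nonneg (hw n) (Finset.sum_nonneg fun i _ => sing_nonneg _ _ _)
  have h3 : ∫ z in ball c r, ‖ψ n z‖ ≤
      ∫ z in ball c r, (min ‖ψ n z‖ K + w n * ∑ i ∈ S n, sing δ (ζ n i) z) := by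
    refine setIntegral_mono_on (hi n).norm ((hKi.mono' (hm n) (hbd n)).add hsi.integrableOn)
      measurableSet_ball fun z hz => ?_
    rcases le_total ‖ψ n z‖ K with h | h
    · rw [min_eq_left h]; linarith [hs0 z]
    · rw [min_eq_right h]
      have h4 : ‖(w n : ℂ) * ∑ i ∈ S n, (z - ζ n i)⁻¹‖ ≤
          w n * ((S n).card * δ⁻¹ + ∑ i ∈ S n, sing δ (ζ n i) z) := by
        rw [norm_mul, Complex.norm_real, Real.norm_of_nonneg (hw n)]
        refine mul_le_mul_of_nonneg_left ((norm_sum_le _ _).trans ?_) (hw n)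
        rw [← nsmul_eq_mul, ← Finset.sum_const, ← Finset.sum_add_distrib]
        exact Finset.sum_le_sum fun i _ => norm_inv_le hδ0 _ _
      have h5 := norm_sub_le ((w n : ℂ) * ∑ i ∈ S n, (z - ζ n i)⁻¹ + g n z) (G z)
      have h6 := norm_add_le ((w n : ℂ) * ∑ i ∈ S n, (z - ζ n i)⁻¹) (g n z)
      have h7 := hb n z hz
      have h8 := (hD z (ball_subset_closedBall hz)).trans (le_abs_self D)
      have h9 : w n * (S n).card * δ⁻¹ ≤ C * δ⁻¹ :=
        mul_le_mul_of_nonneg_right (hS n) (by positivity)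
      simp only [hψ]
      nlinarith
  rw [integral_add (hKi.mono' (hm n) (hbd n)) hsi.integrableOn] at h3
  have h4 := setIntegral_le_integral (s := ball c r) hsi (ae_of_all _ hs0)
  rw [integral_const_mul (w n) (μ := volume),
    integral_finsetSum _ fun i _ => integrable_sing δ (ζ n i)] at h4
  simp only [integral_sing hδ0, Finset.sum_const, nsmul_eq_mul] at h4
  have h5 : w n * ((S n).card * (2 * π * δ)) ≤ (C + 1) * (2 * π * δ) := by
    rw [← mul_assoc]
    exact mul_le_mul_of_nonneg_right (by linarith [hS n]) (by positivity)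
  have h6 : (C + 1) * (2 * π * δ) = ε / 2 := by rw [hδ]; field_simp; ring
  change ∫ z in ball c r, ‖ψ n z‖ < ε
  linarith

open Classical in
lemma local_count (S : ℕ → Finset ι) (ζ : ℕ → ι → ℂ) (w : ℕ → ℝ) (g : ℕ → ℂ → ℂ) {G : ℂ → ℂ}
    {c : ℂ} {r R C : ℝ} (h0 : 0 < r) (hr : r < R) (hw : ∀ n, 0 ≤ w n)
    (hg : ∀ n, DifferentiableOn ℂ (g n) (ball c R)) (hG : DifferentiableOn ℂ G (ball c R))
    (hb : ∀ n, ∀ z ∈ ball c r, ‖g n z‖ ≤ C) (hS : ∀ n, w n * (S n).card ≤ C)
    (hconv : ∀ᵐ z ∂(volume.restrict (ball c r)),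
      Tendsto (fun n => (w n : ℂ) * ∑ i ∈ S n, (z - ζ n i)⁻¹ + g n z) atTop (𝓝 (G z))) :
    Tendsto (fun n => w n * ((S n).filter fun i => ζ n i ∈ ball c (r / 2)).card) atTop (𝓝 0) := by
  have h1 := (l1_conv S ζ w g hr hw hg hG hb hS hconv).const_mul (r / (π * r ^ 2 / 2))
  rw [mul_zero] at h1
  have hpi := pi_pos
  refine squeeze_zero (fun n => mul_nonneg (hw n) (Nat.cast_nonneg _)) (fun n => ?_) h1
  have hd : DifferentiableOn ℂ (fun z => (z - c) * (g n z - G z)) (ball c R) :=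
    DifferentiableOn.mul (by fun_prop) ((hg n).sub hG)
  have hk : IntegrableOn (fun z => (w n : ℂ) * ∑ i ∈ S n, (z - c) * (z - ζ n i)⁻¹) (ball c r) :=
    (integrable_finsetSum _ fun i _ => integrableOn_kernel (ζ n i) c r).const_mul _
  have h2 : ∫ z in ball c r, (z - c) * ((w n : ℂ) * ∑ i ∈ S n, (z - ζ n i)⁻¹ + g n z - G z) =
      w n * ∑ i ∈ S n, ∫ z in ball c r, (z - c) * (z - ζ n i)⁻¹ := by
    have : ∀ z, (z - c) * ((w n : ℂ) * ∑ i ∈ S n, (z - ζ n i)⁻¹ + g n z - G z) =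
        (w n : ℂ) * ∑ i ∈ S n, (z - c) * (z - ζ n i)⁻¹ + (z - c) * (g n z - G z) := fun z => by
      rw [← Finset.mul_sum]; ring
    simp only [this]
    rw [integral_add hk (integrableOn_ball_of_diff hr hd), integral_ball_mean h0 hr hd,
      integral_const_mul, integral_finsetSum _ fun i _ => integrableOn_kernel (ζ n i) c r]
    simp
  have h3 : w n * (((S n).filter fun i => ζ n i ∈ ball c (r / 2)).card * (π * r ^ 2 / 2)) ≤
      ((w n : ℂ) * ∑ i ∈ S n, ∫ z in ball c r, (z - c) * (z - ζ n i)⁻¹).re := by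
    rw [Complex.re_ofReal_mul, Complex.re_sum]
    refine mul_le_mul_of_nonneg_left (le_trans (le_of_eq ?_)
      (Finset.sum_le_sum fun i _ => kernel_re_ge (ζ n i) c h0)) (hw n)
    rw [← Finset.sum_filter]
    simp [dist_eq_norm]
  rw [← h2] at h3
  have h4 := h3.trans ((Complex.re_le_norm _).trans (norm_integral_le_integral_norm _))
  have hi : IntegrableOn (fun z => (w n : ℂ) * ∑ i ∈ S n, (z - ζ n i)⁻¹ + g n z - G z)
      (ball c r) :=
    ((integrableOn_sum (S n) (ζ n) (w n) c r).add (integrableOn_ball_of_diff hr (hg n))).sub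
      (integrableOn_ball_of_diff hr hG)
  have h5 := h4.trans (integral_mono_of_nonneg (ae_of_all _ fun z => norm_nonneg _)
    (hi.norm.const_mul r) (by
      filter_upwards [ae_restrict_mem measurableSet_ball] with z hz
      rw [norm_mul]
      exact mul_le_mul_of_nonneg_right (mem_ball_iff_norm.mp hz).le (norm_nonneg _)))
  rw [integral_const_mul, ← mul_assoc, ← le_div_iff₀ (by positivity)] at h5
  rwa [div_mul_eq_mul_div]

lemma regular_conv (S : ℕ → Finset ι) (ζ : ℕ → ι → ℂ) (w : ℕ → ℝ) (g : ℕ → ℂ → ℂ) {G : ℂ → ℂ}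
    {c : ℂ} {r R C : ℝ} (h0 : 0 < r) (hr : r < R) (hw : ∀ n, 0 ≤ w n)
    (hg : ∀ n, DifferentiableOn ℂ (g n) (ball c R)) (hG : DifferentiableOn ℂ G (ball c R))
    (hb : ∀ n, ∀ z ∈ ball c r, ‖g n z‖ ≤ C) (hS : ∀ n, w n * (S n).card ≤ C)
    (hconv : ∀ᵐ z ∂(volume.restrict (ball c r)),
      Tendsto (fun n => (w n : ℂ) * ∑ i ∈ S n, (z - ζ n i)⁻¹ + g n z) atTop (𝓝 (G z)))
    (hS0 : Tendsto (fun n => w n * (S n).card) atTop (𝓝 0)) :
    Tendsto (fun n => g n c) atTop (𝓝 (G c)) := by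
  have hpi := pi_pos
  have h1 := ((l1_conv S ζ w g hr hw hg hG hb hS hconv).add
    (hS0.mul_const (volume.real (ball c r) + 2 * π))).div_const (π * r ^ 2)
  simp only [zero_mul, add_zero, zero_div] at h1
  rw [tendsto_iff_norm_sub_tendsto_zero]
  refine squeeze_zero (fun n => norm_nonneg _) (fun n => ?_) h1
  have h2 := integral_ball_mean h0 hr ((hg n).sub hG)
  have hs := integrableOn_sum (S n) (ζ n) (w n) c r
  have hi : IntegrableOn (fun z => (w n : ℂ) * ∑ i ∈ S n, (z - ζ n i)⁻¹ + g n z - G z)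
      (ball c r) :=
    (hs.add (integrableOn_ball_of_diff hr (hg n))).sub (integrableOn_ball_of_diff hr hG)
  have h3 : ∫ z in ball c r, (g n - G) z =
      (∫ z in ball c r, ((w n : ℂ) * ∑ i ∈ S n, (z - ζ n i)⁻¹ + g n z - G z)) -
        ∫ z in ball c r, (w n : ℂ) * ∑ i ∈ S n, (z - ζ n i)⁻¹ := by
    rw [← integral_sub hi hs]
    congr 1; funext z; simp only [Pi.sub_apply]; ring
  rw [le_div_iff₀ (by positivity), mul_comm]
  have h4 := congrArg norm (h2.symm.trans h3)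
  rw [norm_smul, Real.norm_of_nonneg (by positivity), Pi.sub_apply] at h4
  rw [h4]
  refine (norm_sub_le _ _).trans (add_le_add (norm_integral_le_integral_norm _) ?_)
  rw [integral_const_mul, integral_finsetSum _ fun i _ => integrableOn_inv (ζ n i) c r, norm_mul,
    Complex.norm_real, Real.norm_of_nonneg (hw n), mul_assoc]
  refine mul_le_mul_of_nonneg_left ((norm_sum_le _ _).trans ?_) (hw n)
  rw [← nsmul_eq_mul, ← Finset.sum_const]
  exact Finset.sum_le_sum fun i _ =>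
    (norm_integral_le_integral_norm _).trans (integral_norm_inv_le _ _ _)

end Pool.Agent.Lib.MP_7cef9e_pr
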