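import Pool.Agent.Lib.MP_7cef9e_pr.Rig3

/-!
# Ridge functions: zeros near the real axis, and the rigidity theorem
-/

namespace Pool.Agent.Lib.MP_7cef9e_pr

open Metric Set Filter Topology MeasureTheory Real
open scoped ComplexConjugate

structure Ridge (h : ℂ → ℂ) (u : ℝ → ℝ) (L : ℝ) : Prop where
  diff : Differentiable ℂ h
  zero : h 0 = 1
  le : ∀ z, ‖h z‖ ≤ exp (u z.re)
  eq : ∀ x : ℝ, ‖h x‖ = exp (u x)
  convex : ConvexOn ℝ univ u
  lip : ∀ x y, u x - u y ≤ L * |x - y|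
  symm : ∀ z, h (conj z) = conj (h z)

variable {ι : Type*} {h k : ℂ → ℂ} {u : ℝ → ℝ} {L : ℝ}

lemma Ridge.bound (H : Ridge h u L) (hL : 0 ≤ L) (z : ℂ) : ‖h z‖ ≤ exp (L * ‖z‖) := by
  have h0 : u 0 = 0 := by
    have := H.eq 0
    rw [Complex.ofReal_zero, H.zero, norm_one] at this
    exact (Real.exp_eq_one_iff _).mp this.symm
  refine (H.le z).trans (exp_le_exp.mpr ?_)
  have h1 := H.lip z.re 0
  rw [h0, sub_zero, sub_zero] at h1
  exact h1.trans (mul_le_mul_of_nonneg_left (Complex.abs_re_le_norm z) hL)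

lemma Ridge.logDeriv_conj (H : Ridge h u L) (z : ℂ) :
    deriv h (conj z) / h (conj z) = conj (deriv h z / h z) := by
  have h1 : conj ∘ h ∘ conj = h := by funext w; simp [H.symm]
  have h2 := congrFun (deriv_conj_conj (f := h)) (conj z)
  rw [h1] at h2
  rw [h2, H.symm]
  simp

open Classical in
lemma disc_count (H : Ridge h u L) (S : Finset ι) (ζ : ι → ℂ) (hk : Differentiable ℂ k)
    (hf : ∀ z, h z = (∏ i ∈ S, (z - ζ i)) * k z) (x : ℝ) {s : ℝ} (hs : 0 < s) :
    ((S.filter fun i => ‖ζ i - x‖ ≤ s).card : ℝ) ≤ u (x + 3 * s) + u (x - 3 * s) - 2 * u x := by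
  set a : ℝ := (u (x + 3 * s) - u (x - 3 * s)) / (6 * s) with ha
  have hf' : ∀ z, (∏ i ∈ S.filter fun i => ‖ζ i - x‖ ≤ s, (z - ζ i)) *
      ((∏ i ∈ S.filter fun i => ¬ ‖ζ i - x‖ ≤ s, (z - ζ i)) * k z * Complex.exp (-(a * (z - x)))) =
      h z * Complex.exp (-(a * (z - x))) := fun z => by
    rw [hf z, ← Finset.prod_filter_mul_prod_filter_not S (fun i => ‖ζ i - x‖ ≤ s)]; ring
  have h1 := count_le (S.filter fun i => ‖ζ i - x‖ ≤ s) ζ (c := x)
    (k := fun z => (∏ i ∈ S.filter fun i => ¬ ‖ζ i - x‖ ≤ s, (z - ζ i)) * k z *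
      Complex.exp (-(a * (z - x)))) (by fun_prop) hs (fun i hi => (Finset.mem_filter.mp hi).2)
    (B := exp ((u (x + 3 * s) + u (x - 3 * s)) / 2)) (fun z hz => by
      rw [hf', norm_mul, Complex.norm_exp]
      refine (mul_le_mul_of_nonneg_right (H.le z) (exp_pos _).le).trans ?_
      rw [← exp_add, exp_le_exp]
      have h2 := Complex.abs_re_le_norm (z - x)
      rw [hz, Complex.sub_re, Complex.ofReal_re, abs_le] at h2
      have h3 := H.convex.2 (mem_univ (x + 3 * s)) (mem_univ (x - 3 * s))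
        (show 0 ≤ (z.re - x + 3 * s) / (6 * s) from div_nonneg (by linarith) (by positivity))
        (show 0 ≤ (3 * s - (z.re - x)) / (6 * s) from div_nonneg (by linarith) (by positivity))
        (by field_simp; ring)
      simp only [smul_eq_mul] at h3
      rw [show (z.re - x + 3 * s) / (6 * s) * (x + 3 * s) +
        (3 * s - (z.re - x)) / (6 * s) * (x - 3 * s) = z.re by field_simp; ring] at h3
      have h4 : (z.re - x + 3 * s) / (6 * s) * u (x + 3 * s) +
          (3 * s - (z.re - x)) / (6 * s) * u (x - 3 * s) - a * (z.re - x) =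
          (u (x + 3 * s) + u (x - 3 * s)) / 2 := by rw [ha]; field_simp; ring
      simp only [Complex.neg_re, Complex.re_ofReal_mul, Complex.sub_re, Complex.ofReal_re]
      linarith)
  rw [hf', sub_self, mul_zero, neg_zero, Complex.exp_zero, mul_one, H.eq,
    ← le_div_iff₀ (exp_pos _), ← exp_sub] at h1
  linarith [le_of_two_pow_le_exp h1]

lemma telescope (v : ℝ → ℝ) (p : ℕ) :
    ∑ j ∈ Finset.range p, (v (j + 3) + v (j - 3) - 2 * v j) =
      (v (p + 2) - v (p - 1)) + (v (p + 1) - v (p - 2)) + (v p - v (p - 3)) +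
        (v (-1) - v 2) + (v (-2) - v 1) + (v (-3) - v 0) := by
  induction p with
  | zero => simp; ring
  | succ p ih => rw [Finset.sum_range_succ, ih]; push_cast; ring_nf

open Classical in
lemma strip_count (H : Ridge h u L) (S : Finset ι) (ζ : ι → ℂ) (hk : Differentiable ℂ k)
    (hf : ∀ z, h z = (∏ i ∈ S, (z - ζ i)) * k z) (m : ℕ) {s : ℝ} (hs : 0 < s) :
    ((S.filter fun i => |(ζ i).im| ≤ s / 2 ∧ |(ζ i).re| ≤ m * s).card : ℝ) ≤ 18 * s * L := by
  have hsub : (S.filter fun i => |(ζ i).im| ≤ s / 2 ∧ |(ζ i).re| ≤ m * s) ⊆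
      (Finset.range (2 * m + 1)).biUnion fun j =>
        S.filter fun i => ‖ζ i - (((j - m) * s : ℝ) : ℂ)‖ ≤ s := by
    intro i hi
    obtain ⟨hiS, h1, h2⟩ := Finset.mem_filter.mp hi
    rw [abs_le] at h2
    set t := (ζ i).re / s + m + 1 / 2 with ht
    have hre : (ζ i).re = (t - m - 1 / 2) * s := by rw [ht]; field_simp; ring
    have ht0 : 0 ≤ t := by nlinarith
    have ht1 : t < (2 * m + 1 : ℕ) := by push_cast; nlinarith
    refine Finset.mem_biUnion.mpr ⟨⌊t⌋₊, Finset.mem_range.mpr ((Nat.floor_lt ht0).mpr ht1),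
      Finset.mem_filter.mpr ⟨hiS, (Complex.norm_le_abs_re_add_abs_im _).trans ?_⟩⟩
    have h3 := Nat.floor_le ht0
    have h4 := Nat.lt_floor_add_one t
    have h5 : |(ζ i).re - (⌊t⌋₊ - m) * s| ≤ s / 2 := by
      rw [abs_le]; constructor <;> nlinarith
    simp only [Complex.sub_re, Complex.ofReal_re, Complex.sub_im, Complex.ofReal_im, sub_zero]
    linarith
  have h1 := (Finset.card_le_card hsub).trans Finset.card_biUnion_le
  have h2 := (Nat.cast_le (α := ℝ)).mpr h1
  rw [Nat.cast_sum] at h2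
  refine h2.trans ((Finset.sum_le_sum fun (j : ℕ) _ =>
    disc_count H S ζ hk hf ((j - m) * s) hs).trans ?_)
  have h3 := telescope (fun t => u ((t - m) * s)) (2 * m + 1)
  have h4 : ∀ a b : ℝ, |a - b| = 3 → u ((a - m) * s) - u ((b - m) * s) ≤ 3 * s * L := by
    intro a b hab
    refine (H.lip _ _).trans (le_of_eq ?_)
    rw [← sub_mul, sub_sub_sub_cancel_right, abs_mul, hab, abs_of_pos hs]; ring
  refine le_trans (le_of_eq (Finset.sum_congr rfl fun j _ => ?_)) (h3.trans_le ?_)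
  · ring_nf
  · generalize ((2 * m + 1 : ℕ) : ℝ) = p
    have e1 := h4 (p + 2) (p - 1) (by ring_nf; norm_num)
    have e2 := h4 (p + 1) (p - 2) (by ring_nf; norm_num)
    have e3 := h4 p (p - 3) (by ring_nf; norm_num)
    have e4 := h4 (-1) 2 (by norm_num)
    have e5 := h4 (-2) 1 (by norm_num)
    have e6 := h4 (-3) 0 (by norm_num)
    linarith

lemma decomp (d : ℕ → ℕ) (h k : ℕ → ℂ → ℂ) (S : ℕ → Finset ι) (ζ : ℕ → ι → ℂ) {R : ℝ}
    (hk : ∀ n, Differentiable ℂ (k n)) (hf : ∀ n z, h n z = (∏ i ∈ S n, (z - ζ n i)) * k n z)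
    (hk0 : ∀ n z, ‖z‖ ≤ R → k n z ≠ 0) :
    ∀ᵐ z : ℂ, ‖z‖ ≤ R → ∀ n, deriv (h n) z / ((d n : ℂ) * h n z) =
      (((d n : ℝ)⁻¹ : ℝ) : ℂ) * ∑ i ∈ S n, (z - ζ n i)⁻¹ +
        (((d n : ℝ)⁻¹ : ℝ) : ℂ) * (deriv (k n) z / k n z) := by
  have : ∀ᵐ z : ℂ, ∀ n, z ∉ ζ n '' (S n : Set ι) := ae_all_iff.mpr fun n =>
    compl_mem_ae_iff.mpr (((S n).finite_toSet.image (ζ n)).measure_zero _)
  filter_upwards [this] with z hz hR n
  rw [← mul_add, ← logDeriv_factor (S n) (ζ n) (hk n) (hf n)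
    (fun i hi he => hz n ⟨i, hi, he.symm⟩) (hk0 n z hR)]
  push_cast
  rw [div_eq_mul_inv, div_eq_mul_inv, mul_inv]; ring

lemma landau_seq {d : ℕ → ℕ} (hd : ∀ n, 0 < d n) (h k : ℕ → ℂ → ℂ) (u : ℕ → ℝ → ℝ) {M : ℝ} (hM : 0 < M)
    (H : ∀ n, Ridge (h n) (u n) ((d n : ℝ) * M)) (S : ℕ → Finset ι) (ζ : ℕ → ι → ℂ) {R : ℝ}
    (hR : 0 < R) (hk : ∀ n, Differentiable ℂ (k n)) (hζ : ∀ n, ∀ i ∈ S n, ‖ζ n i‖ ≤ R)
    (hf : ∀ n z, h n z = (∏ i ∈ S n, (z - ζ n i)) * k n z)
    (hk0 : ∀ n z, ‖z‖ ≤ R → k n z ≠ 0) :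
    ∃ g : ℕ → ℂ → ℂ, (∀ n, (d n : ℝ)⁻¹ * (S n).card ≤ 6 * M * R + 24 * M) ∧
      (∀ n, DifferentiableOn ℂ (g n) (ball 0 R)) ∧
      (∀ n z, ‖z‖ ≤ R / 4 → ‖g n z‖ ≤ 6 * M * R + 24 * M) ∧
      (∀ n z w, ‖z‖ ≤ R / 8 → ‖w‖ ≤ R / 8 → ‖g n z - g n w‖ ≤ 192 * M * ‖z - w‖ / R) ∧
      ∀ᵐ z : ℂ, ‖z‖ ≤ R → ∀ n, deriv (h n) z / ((d n : ℂ) * h n z) =
        (((d n : ℝ)⁻¹ : ℝ) : ℂ) * ∑ i ∈ S n, (z - ζ n i)⁻¹ + g n z := by
  have hp : ∀ n : ℕ, (0 : ℝ) < (d n : ℝ) := fun n => Nat.cast_pos.mpr (hd n)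
  have hl := fun n => landau (S n) (ζ n) (hk n) hR (A := (d n : ℝ) * M * (3 * R))
    (by have := hp n; positivity) (hζ n) (hk0 n) (by rw [← hf, (H n).zero])
    (fun z hz => by rw [← hf, ← hz]; exact (H n).bound (by positivity) z)
  have hMR : 0 < M * R := by positivity
  refine ⟨fun n z => (((d n : ℝ)⁻¹ : ℝ) : ℂ) * (deriv (k n) z / k n z), fun n => ?_,
    fun n => (hl n).2.1.const_mul _, fun n z hz => ?_, fun n z w hz hw => ?_,
    decomp d h k S ζ hk hf hk0⟩
  · rw [inv_mul_le_iff₀ (hp n)]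
    nlinarith [(hl n).1, hp n]
  · rw [norm_mul, Complex.norm_real, Real.norm_of_nonneg (by positivity), inv_mul_le_iff₀ (hp n)]
    refine ((hl n).2.2.1 z hz).trans ?_
    rw [show 8 * ((d n : ℝ) * M * (3 * R)) / R = (d n : ℝ) * (24 * M) by field_simp; ring]
    have := hp n
    gcongr
    linarith
  · rw [← mul_sub, norm_mul, Complex.norm_real, Real.norm_of_nonneg (by positivity),
      inv_mul_le_iff₀ (hp n)]
    refine ((hl n).2.2.2 z w hz hw).trans (le_of_eq ?_)
    field_simp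
    ring

theorem rigid {d : ℕ → ℕ} (hd : ∀ n, 0 < d n) (h : ℕ → ℂ → ℂ) (u : ℕ → ℝ → ℝ) {M : ℝ} (hM : 0 < M)
    (H : ∀ n, Ridge (h n) (u n) ((d n : ℝ) * M)) {F : ℂ → ℂ}
    (hF : DifferentiableOn ℂ F {z | 0 < z.im})
    (hconv : ∀ᵐ z : ℂ, 0 < z.im →
      Tendsto (fun n => deriv (h n) z / ((d n : ℂ) * h n z)) atTop (𝓝 (F z)))
    {z₁ z₂ : ℂ} (h₁ : 0 < z₁.im) (h₂ : 0 < z₂.im) : F z₁ = F z₂ := by
  classical
  have hball : ∀ c z : ℂ, z ∈ ball c |c.im| → |z.im - c.im| < |c.im| := fun c z hz =>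
    (Complex.abs_im_le_norm (z - c)).trans_lt (mem_ball_iff_norm.mp hz)
  have hup : ∀ c : ℂ, 0 < c.im → ball c |c.im| ⊆ {z | 0 < z.im} := fun c hc z hz => by
    have := hball c z hz
    rw [abs_of_pos hc, abs_lt] at this
    show 0 < z.im
    linarith
  have hloc : ∀ c : ℂ, c.im ≠ 0 → ∃ G : ℂ → ℂ, DifferentiableOn ℂ G (ball c |c.im|) ∧
      ∀ᵐ z : ℂ, z ∈ ball c |c.im| →
        Tendsto (fun n => deriv (h n) z / ((d n : ℂ) * h n z)) atTop (𝓝 (G z)) := by
    intro c hc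
    rcases lt_or_gt_of_ne hc with hc | hc
    · have hlow : ∀ z ∈ ball c |c.im|, 0 < (conj z).im := fun z hz => by
        have := hball c z hz
        rw [abs_of_neg hc, abs_lt] at this
        rw [Complex.conj_im]
        linarith
      refine ⟨conj ∘ F ∘ conj, fun z hz => ?_, ?_⟩
      · have h3 := (hF.differentiableAt
          ((isOpen_lt continuous_const Complex.continuous_im).mem_nhds (hlow z hz))).conj_conj
        rw [Complex.conj_conj] at h3
        exact h3.differentiableWithinAt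
      · filter_upwards [Complex.conjLIE.measurePreserving.quasiMeasurePreserving.ae hconv]
          with z hz hzc
        have h3 := (Complex.continuous_conj.tendsto _).comp (hz (hlow z hzc))
        refine h3.congr fun n => ?_
        simp only [Function.comp, Complex.conjLIE_apply]
        rw [mul_comm, ← div_div, (H n).logDeriv_conj, mul_comm, ← div_div]
        simp
    · exact ⟨F, hF.mono (hup c hc), by
        filter_upwards [hconv] with z hz hzc using hz (hup c hc hzc)⟩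
  have hw : ∀ n : ℕ, (0 : ℝ) ≤ (d n : ℝ)⁻¹ := fun n => by positivity
  have key : ∀ R : ℝ, 8 * ‖z₁‖ ≤ R → 8 * ‖z₂‖ ≤ R → 0 < R →
      ‖F z₁ - F z₂‖ ≤ 192 * M * ‖z₁ - z₂‖ / R := by
    intro R hR1 hR2 hR
    choose N ζ k hk hζ hf hk0 using fun n =>
      exists_factor (H n).diff (H n).zero (R := 8 * R) (by positivity)
    obtain ⟨g, hS, hg, hgb, -, hdec⟩ := landau_seq hd h k u hM H (fun n => Finset.range (N n)) ζ
      (by positivity) hk hζ hf hk0
    set p : Set ℂ → Prop := fun A => Tendsto (fun n => (d n : ℝ)⁻¹ *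
      ((Finset.range (N n)).filter fun i => ζ n i ∈ A).card) atTop (𝓝 0) with hp
    have hunion : ∀ (n : ℕ) (A B C : Set ℂ), A ⊆ B ∪ C → (d n : ℝ)⁻¹ *
        ((Finset.range (N n)).filter fun i => ζ n i ∈ A).card ≤
        (d n : ℝ)⁻¹ * ((Finset.range (N n)).filter fun i => ζ n i ∈ B).card +
        (d n : ℝ)⁻¹ * ((Finset.range (N n)).filter fun i => ζ n i ∈ C).card := by
      intro n A B C hA
      rw [← mul_add, ← Nat.cast_add]
      refine mul_le_mul_of_nonneg_left (Nat.cast_le.mpr (le_trans (Finset.card_le_card ?_)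
        (Finset.card_union_le _ _))) (hw n)
      rw [← Finset.filter_or]
      exact Finset.monotone_filter_right _ fun i _ hi => hA hi
    have hpu : ∀ A B C : Set ℂ, A ⊆ B ∪ C → p B → p C → p A := fun A B C hA hB hC =>
      squeeze_zero (fun n => by positivity) (fun n => hunion n A B C hA) (by simpa using hB.add hC)
    have hp0 : p ∅ := by simp [hp]
    have hK : ∀ s : ℝ, 0 < s → p (closedBall 0 R ∩ {z | s ≤ |z.im|}) := by
      intro s hs
      refine IsCompact.induction_on ((isCompact_closedBall 0 R).inter_right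
        (isClosed_le continuous_const (by fun_prop))) hp0
        (fun A B hAB hB => hpu A B ∅ (by simpa using hAB) hB hp0)
        (fun A B hA hB => hpu _ A B subset_rfl hA hB) fun c hc => ?_
      have hc1 : ‖c‖ ≤ R := mem_closedBall_zero_iff.mp hc.1
      have hc2 : 0 < |c.im| := hs.trans_le hc.2
      have hc3 := Complex.abs_im_le_norm c
      obtain ⟨G, hG, hGc⟩ := hloc c (abs_pos.mp hc2)
      have hn : ∀ z ∈ ball c |c.im|, ‖z‖ ≤ 2 * R := fun z hz => by
        have h3 := mem_ball_iff_norm.mp hz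
        have h4 : ‖z‖ ≤ ‖z - c‖ + ‖c‖ := by simpa using norm_add_le (z - c) c
        linarith
      have hsub : ball c (|c.im| / 2) ⊆ ball c |c.im| := ball_subset_ball (half_le_self hc2.le)
      refine ⟨ball c (|c.im| / 2 / 2), mem_nhdsWithin_of_mem_nhds (ball_mem_nhds _ (by positivity)),
        local_count _ ζ _ g (half_pos hc2) (half_lt_self hc2) hw
          (fun n => (hg n).mono fun z hz => mem_ball_zero_iff.mpr (by linarith [hn z hz])) hG
          (fun n z hz => hgb n z (by linarith [hn z (hsub hz)])) hS ?_⟩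
      filter_upwards [ae_restrict_mem measurableSet_ball, ae_restrict_of_ae hGc,
        ae_restrict_of_ae hdec] with z hz h3 h4
      exact (h3 (hsub hz)).congr (h4 (by linarith [hn z (hsub hz)]))
    have hall : p (closedBall 0 R) := by
      refine tendsto_order.2 ⟨fun a ha => Eventually.of_forall fun n =>
        ha.trans_le (by positivity), fun ε hε => ?_⟩
      set s := ε / (72 * M) with hs
      have hs0 : 0 < s := by positivity
      obtain ⟨m, hm⟩ := exists_nat_ge (R / s)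
      rw [div_le_iff₀ hs0] at hm
      filter_upwards [(hK (s / 2) (half_pos hs0)).eventually (gt_mem_nhds (half_pos hε))] with n hn
      refine (hunion n _ (closedBall 0 R ∩ {z | s / 2 ≤ |z.im|})
        {z | |z.im| ≤ s / 2 ∧ |z.re| ≤ m * s} fun z hz => ?_).trans_lt ?_
      · rcases le_total (s / 2) |z.im| with h3 | h3
        · exact Or.inl ⟨hz, h3⟩
        · exact Or.inr ⟨h3, (Complex.abs_re_le_norm z).trans
            ((mem_closedBall_zero_iff.mp hz).trans hm)⟩
      · have h3 := mul_le_mul_of_nonneg_left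
          (strip_count (H n) (Finset.range (N n)) (ζ n) (hk n) (hf n) m hs0) (hw n)
        rw [show (d n : ℝ)⁻¹ * (18 * s * ((d n : ℝ) * M)) = ε / 4 by
          have : (d n : ℝ) ≠ 0 := Nat.cast_ne_zero.mpr (hd n).ne'
          rw [hs]; field_simp; ring] at h3
        simp only [mem_ofPred_eq] at h3 ⊢
        linarith
    obtain ⟨g', hS', hg', hgb', hlip, hdec'⟩ := landau_seq hd h
      (fun n z => (∏ i ∈ (Finset.range (N n)).filter fun i => ¬ ζ n i ∈ closedBall 0 R,
        (z - ζ n i)) * k n z) u hM H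
      (fun n => (Finset.range (N n)).filter fun i => ζ n i ∈ closedBall 0 R) ζ hR
      (fun n => by have := hk n; fun_prop)
      (fun n i hi => mem_closedBall_zero_iff.mp (Finset.mem_filter.mp hi).2)
      (fun n z => by rw [← mul_assoc, Finset.prod_filter_mul_prod_filter_not, hf])
      (fun n z hz => mul_ne_zero (Finset.prod_ne_zero_iff.mpr fun i hi => sub_ne_zero.mpr
        fun he => (Finset.mem_filter.mp hi).2 (he ▸ mem_closedBall_zero_iff.mpr hz))
        (hk0 n z (by linarith)))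
    have hlim : ∀ c : ℂ, 0 < c.im → 8 * ‖c‖ ≤ R → Tendsto (fun n => g' n c) atTop (𝓝 (F c)) := by
      intro c hc hcR
      have hc2 : 0 < |c.im| := abs_pos.mpr hc.ne'
      have hc3 := Complex.abs_im_le_norm c
      have hn : ∀ z ∈ ball c |c.im|, ‖z‖ ≤ R / 4 := fun z hz => by
        have h3 := mem_ball_iff_norm.mp hz
        have h4 : ‖z‖ ≤ ‖z - c‖ + ‖c‖ := by simpa using norm_add_le (z - c) c
        linarith
      have hsub : ball c (|c.im| / 2) ⊆ ball c |c.im| := ball_subset_ball (half_le_self hc2.le)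
      refine regular_conv _ ζ _ g' (half_pos hc2) (half_lt_self hc2) hw
        (fun n => (hg' n).mono fun z hz => mem_ball_zero_iff.mpr (by linarith [hn z hz]))
        (hF.mono (hup c hc)) (fun n z hz => hgb' n z (hn z (hsub hz))) hS' ?_ hall
      filter_upwards [ae_restrict_mem measurableSet_ball, ae_restrict_of_ae hconv,
        ae_restrict_of_ae hdec'] with z hz h3 h4
      exact (h3 (hup c hc (hsub hz))).congr (h4 (by linarith [hn z (hsub hz)]))
    exact le_of_tendsto' ((hlim z₁ h₁ hR1).sub (hlim z₂ h₂ hR2)).norm fun n =>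
      hlip n z₁ z₂ (by linarith) (by linarith)
  rw [← sub_eq_zero, ← norm_le_zero_iff]
  refine ge_of_tendsto (tendsto_const_nhds.div_atTop (f := fun _ : ℝ => 192 * M * ‖z₁ - z₂‖)
    tendsto_id) ?_
  filter_upwards [eventually_ge_atTop (8 * ‖z₁‖), eventually_ge_atTop (8 * ‖z₂‖),
    eventually_gt_atTop 0] with R h3 h4 h5 using key R h3 h4 h5

end Pool.Agent.Lib.MP_7cef9e_pr
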