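import Pool.Agent.Lib.MP_7cef9e_pr.Rig4
import Pool.Agent.Lib.MP_7cef9e_pr.Haar

/-!
# Spherical integrals are ridge functions; constant R-transform means a point mass
-/

namespace Pool.Agent.Lib.MP_7cef9e_pr

open Metric Set Filter Topology MeasureTheory ProbabilityTheory
open scoped ComplexConjugate

lemma ridge_complexMGF {Ω : Type*} [MeasurableSpace Ω] (P : Measure Ω) [IsProbabilityMeasure P]
    {X : Ω → ℝ} (hX : Measurable X) {L : ℝ} (hL : ∀ ω, |X ω| ≤ L) :
    Ridge (complexMGF X P) (cgf X P) L := by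
  have hi : ∀ t : ℝ, Integrable (fun ω => Real.exp (t * X ω)) P := fun t =>
    Integrable.of_bound (by fun_prop) (Real.exp (|t| * L)) (ae_of_all _ fun ω => by
      rw [Real.norm_eq_abs, Real.abs_exp, Real.exp_le_exp]
      refine (le_abs_self _).trans ?_
      rw [abs_mul]
      exact mul_le_mul_of_nonneg_left (hL ω) (abs_nonneg t))
  have hpos : ∀ t, 0 < mgf X P t := fun t => mgf_pos (hi t)
  have hexp : ∀ t, Real.exp (cgf X P t) = mgf X P t := fun t => Real.exp_log (hpos t)
  have hset : integrableExpSet X P = univ := eq_univ_of_forall hi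
  refine ⟨fun z => (hasDerivAt_complexMGF (by simp [hset])).differentiableAt, by simp [complexMGF],
    fun z => by rw [hexp]; exact norm_complexMGF_le_mgf, fun x => ?_, ⟨convex_univ, ?_⟩,
    fun x y => ?_, fun z => ?_⟩
  · rw [complexMGF_ofReal, hexp, Complex.norm_real, Real.norm_of_nonneg (hpos x).le]
  · intro x _ y _ a b ha hb hab
    simp only [smul_eq_mul]
    rw [← Real.exp_le_exp, hexp]
    have h1 : ∀ ω, Real.exp ((a * x + b * y) * X ω) ≤ Real.exp (a * cgf X P x + b * cgf X P y) *
        (a * (Real.exp (x * X ω) / mgf X P x) + b * (Real.exp (y * X ω) / mgf X P y)) := by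
      intro ω
      have h2 := convexOn_exp.2 (mem_univ (x * X ω - cgf X P x)) (mem_univ (y * X ω - cgf X P y))
        ha hb hab
      simp only [smul_eq_mul] at h2
      rw [← hexp, ← hexp, ← Real.exp_sub, ← Real.exp_sub]
      refine le_trans (le_of_eq ?_) (mul_le_mul_of_nonneg_left h2 (Real.exp_pos _).le)
      rw [← Real.exp_add]
      congr 1
      ring
    have hx := ((hi x).div_const (mgf X P x)).const_mul a
    have hy := ((hi y).div_const (mgf X P y)).const_mul b
    refine (integral_mono (hi _) ((hx.add hy).const_mul _) h1).trans (le_of_eq ?_)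
    simp only [Pi.add_apply]
    rw [integral_const_mul, integral_add hx hy, integral_const_mul, integral_const_mul,
      integral_div, integral_div]
    change _ * (a * (mgf X P x / mgf X P x) + b * (mgf X P y / mgf X P y)) = _
    rw [div_self (hpos x).ne', div_self (hpos y).ne', mul_one, mul_one, hab, mul_one]
  · rw [sub_le_iff_le_add, ← Real.exp_le_exp, Real.exp_add, hexp, hexp, mgf, mgf,
      ← integral_const_mul]
    refine integral_mono (hi x) ((hi y).const_mul _) fun ω => ?_
    simp only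
    rw [← Real.exp_add, Real.exp_le_exp, ← sub_le_iff_le_add, ← sub_mul, mul_comm L]
    refine (le_abs_self _).trans ?_
    rw [abs_mul]
    exact mul_le_mul_of_nonneg_left (hL ω) (abs_nonneg _)
  · rw [complexMGF, complexMGF, ← integral_conj]
    simp [← Complex.exp_conj]

open Matrix in
open scoped Matrix.Norms.L2Operator in
lemma ridge_spherical {n : ℕ} {E : Matrix (Fin (n + 1)) (Fin (n + 1)) ℂ} (hE : E.IsHermitian)
    {M : ℝ} (hM : ‖Matrix.toEuclideanCLM (n := Fin (n + 1)) (𝕜 := ℂ) E‖ ≤ M) :
    ∃ u, Ridge (sphericalIntegral (n + 1) E) u ((n + 1 : ℕ) * M) := by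
  set Y : Matrix.unitaryGroup (Fin (n + 1)) ℂ → ℂ := fun U =>
    (star (U : Matrix (Fin (n + 1)) (Fin (n + 1)) ℂ) * E * U) 0 0 with hY
  have hre : ∀ U, ((Y U).re : ℂ) = Y U := fun U =>
    (isHermitian_conjTranspose_mul_mul (U : Matrix (Fin (n + 1)) (Fin (n + 1)) ℂ)
      hE).coe_re_apply_self 0
  have hc : Continuous Y :=
    ((continuous_subtype_val.star.mul continuous_const).mul continuous_subtype_val).matrix_elem 0 0
  have hb : ∀ U, ‖Y U‖ ≤ M := fun U => by
    set A := star (U : Matrix (Fin (n + 1)) (Fin (n + 1)) ℂ) * E * U with hA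
    have h1 : ‖A‖ = ‖E‖ := by
      rw [hA, CStarRing.norm_mul_coe_unitary, ← Unitary.coe_star, CStarRing.norm_coe_unitary_mul]
    have h2 := l2_opNorm_mulVec A (EuclideanSpace.single 0 1)
    have h3 := (PiLp.norm_apply_le _ 0).trans h2
    rw [h1, ← l2_opNorm_toEuclideanCLM] at h3
    simp only [PiLp.norm_single, norm_one, mul_one] at h3
    refine le_trans (le_of_eq ?_) (h3.trans hM)
    simp [hY, hA]
  refine ⟨cgf (fun U => (n + 1 : ℕ) * (Y U).re) (haarU (n + 1)), ?_⟩
  have he : sphericalIntegral (n + 1) E =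
      complexMGF (fun U => (n + 1 : ℕ) * (Y U).re) (haarU (n + 1)) := by
    funext z
    unfold sphericalIntegral complexMGF
    congr 1
    funext U
    congr 1
    rw [Complex.ofReal_mul, hre, Matrix.mul_assoc, Matrix.mul_assoc, Matrix.trace_mul_comm,
      Matrix.mul_assoc]
    simp only [Matrix.trace, diag_apply, diagonal_mul, Fin.sum_univ_succ, Fin.val_zero, if_true,
      Fin.val_succ, Nat.succ_ne_zero, if_false, zero_mul, Finset.sum_const_zero, add_zero, hY]
    push_cast
    ring
  rw [he]
  refine ridge_complexMGF (X := fun U => (n + 1 : ℕ) * (Y U).re) _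
    (continuous_const.mul (Complex.continuous_re.comp hc)).measurable fun U => ?_
  rw [abs_mul, abs_of_nonneg (by positivity)]
  exact mul_le_mul_of_nonneg_left ((Complex.abs_re_le_norm _).trans (hb U)) (by positivity)

lemma ridge_spherical_pos {n : ℕ} (hn : 0 < n) {E : Matrix (Fin n) (Fin n) ℂ} (hE : E.IsHermitian)
    {M : ℝ} (hM : ‖Matrix.toEuclideanCLM (n := Fin n) (𝕜 := ℂ) E‖ ≤ M) :
    ∃ u, Ridge (sphericalIntegral n E) u (n * M) := by
  obtain ⟨m, rfl⟩ := Nat.exists_eq_succ_of_ne_zero hn.ne'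
  exact ridge_spherical hE hM

lemma eq_dirac_of_rTransform {μ : Measure ℝ} [IsProbabilityMeasure μ] (hμ : IsCompact μ.support)
    {R : ℂ → ℂ} (hR : IsRTransform μ R) {c : ℂ} (hc : ∀ z : ℂ, 0 < z.im → R z = c) :
    μ = Measure.dirac c.re := by
  have h1 : ∀ᶠ z in 𝓝 (0 : ℂ), R z = c := by
    refine (hR.1.frequently_eq_iff_eventually_eq analyticAt_const).mp ?_
    have h2 : Tendsto (fun t : ℝ => (t : ℂ) * Complex.I) (𝓝[>] 0) (𝓝[≠] 0) := by
      refine tendsto_nhdsWithin_iff.mpr ⟨?_, ?_⟩
      · exact (Continuous.tendsto' (by fun_prop) 0 0 (by simp)).mono_left nhdsWithin_le_nhds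
      · filter_upwards [self_mem_nhdsWithin] with t (ht : 0 < t)
        simp [ht.ne']
    refine h2.frequently (Eventually.frequently ?_)
    filter_upwards [self_mem_nhdsWithin] with t (ht : 0 < t) using hc _ (by simpa using ht)
  obtain ⟨ε, hε, h2⟩ := Metric.eventually_nhds_iff.mp
    (h1.and (eventually_nhdsWithin_iff.mp hR.2))
  have h3 : ∀ v : ℂ, ε⁻¹ < ‖v‖ → cauchyTransform μ (c + v) = v⁻¹ := by
    intro v hv
    have hv0 : 0 < ‖v‖ := lt_trans (by positivity) hv
    obtain ⟨h4, h5⟩ := h2 (y := v⁻¹) (by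
      rw [dist_zero_right, norm_inv]; exact inv_lt_of_inv_lt₀ hε hv)
    have h6 := h5 (inv_ne_zero (norm_pos_iff.mp hv0))
    rwa [h4, one_div, inv_inv] at h6
  have hreal : ∀ t : ℝ, cauchyTransform μ t = ((∫ x, 1 / (t - x) ∂μ : ℝ) : ℂ) := fun t => by
    rw [← integral_complex_ofReal, cauchyTransform]
    simp
  obtain ⟨B, hB⟩ := hμ.isBounded.exists_norm_le
  have hBa : ∀ᵐ x ∂μ, |x| ≤ B := by
    filter_upwards [Measure.support_mem_ae (μ := μ)] with x hx using hB x hx
  set T := ε⁻¹ + |B| + ‖c‖ + 1 with hT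
  have hε' : 0 < ε⁻¹ := by positivity
  have hT0 : 0 < T := by positivity
  have him : c.im = 0 := by
    have h4 : ε⁻¹ < ‖(T : ℂ) - c‖ := by
      have := norm_sub_norm_le (T : ℂ) c
      rw [Complex.norm_real, Real.norm_of_nonneg hT0.le] at this
      linarith [abs_nonneg B]
    have h5 := h3 _ h4
    rw [add_sub_cancel, hreal] at h5
    have h6 := congrArg (fun w : ℂ => w⁻¹.im) h5
    simp only [inv_inv, ← Complex.ofReal_inv, Complex.ofReal_im, Complex.sub_im] at h6
    linarith
  obtain ⟨a, rfl⟩ : ∃ a : ℝ, c = a := ⟨c.re, Complex.ext (by simp) (by simp [him])⟩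
  rw [Complex.norm_real, Real.norm_eq_abs] at hT
  have hTn : ε⁻¹ < T := by linarith [abs_nonneg B, abs_nonneg a]
  have e1 := h3 T (by rwa [Complex.norm_real, Real.norm_of_nonneg hT0.le])
  have e2 := h3 (-T) (by rwa [norm_neg, Complex.norm_real, Real.norm_of_nonneg hT0.le])
  rw [← Complex.ofReal_add, hreal, ← Complex.ofReal_inv, Complex.ofReal_inj] at e1
  rw [← Complex.ofReal_neg, ← Complex.ofReal_add, hreal, ← Complex.ofReal_inv,
    Complex.ofReal_inj] at e2
  have hx : ∀ᵐ x ∂μ, 1 ≤ T - (x - a) ∧ 1 ≤ T + (x - a) := by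
    filter_upwards [hBa] with x hx
    have := abs_le.mp hx
    constructor <;> linarith [le_abs_self B, le_abs_self a, neg_abs_le a]
  have i1 : Integrable (fun x => 1 / (a + T - x)) μ :=
    Integrable.of_bound (Measurable.aestronglyMeasurable (by fun_prop)) 1 (by
      filter_upwards [hx] with x hx
      rw [norm_div, norm_one, Real.norm_of_nonneg (by linarith [hx.1])]
      exact (div_le_one (by linarith [hx.1])).mpr (by linarith [hx.1]))
  have i2 : Integrable (fun x => 1 / (a + -T - x)) μ :=
    Integrable.of_bound (Measurable.aestronglyMeasurable (by fun_prop)) 1 (by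
      filter_upwards [hx] with x hx
      rw [norm_div, norm_one, Real.norm_of_nonpos (by linarith [hx.2])]
      exact (div_le_one (by linarith [hx.2])).mpr (by linarith [hx.2]))
  have hform : ∀ x : ℝ, 1 ≤ T - (x - a) → 1 ≤ T + (x - a) →
      1 / (a + T - x) - 1 / (a + -T - x) - 2 / T =
        2 * (x - a) ^ 2 / (T * ((T - (x - a)) * (T + (x - a)))) := by
    intro x h4 h5
    have h6 : T - (x - a) ≠ 0 := by linarith
    have h7 : T + (x - a) ≠ 0 := by linarith
    rw [show a + T - x = T - (x - a) by ring, show a + -T - x = -(T + (x - a)) by ring]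
    field_simp
    ring
  have h4 := (integral_eq_zero_iff_of_nonneg_ae (f := fun x => 1 / (a + T - x) -
      1 / (a + -T - x) - 2 / T) (by
      filter_upwards [hx] with x hx
      rw [hform x hx.1 hx.2]
      have := hx.1
      have := hx.2
      simp only [Pi.zero_apply]
      refine div_nonneg (by positivity) (mul_nonneg hT0.le (mul_nonneg ?_ ?_)) <;> linarith)
    ((i1.sub i2).sub (integrable_const _))).mp (by
      have i3 : Integrable (fun x => 1 / (a + T - x) - 1 / (a + -T - x)) μ := i1.sub i2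
      rw [integral_sub i3 (integrable_const _), integral_sub i1 i2, e1, e2]
      simp only [integral_const, probReal_univ, smul_eq_mul]
      field_simp
      ring)
  have h5 : (id : ℝ → ℝ) =ᵐ[μ] fun _ => a := by
    filter_upwards [hx, h4] with x hx h6
    rw [hform x hx.1 hx.2, Pi.zero_apply, div_eq_zero_iff] at h6
    rcases h6 with h6 | h6
    · have : (x - a) ^ 2 = 0 := by linarith
      exact sub_eq_zero.mp (pow_eq_zero_iff two_ne_zero |>.mp this)
    · have : 0 < T * ((T - (x - a)) * (T + (x - a))) :=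
        mul_pos hT0 (mul_pos (by linarith [hx.1]) (by linarith [hx.2]))
      exact absurd h6 this.ne'
  have h6 : μ.map id = μ.map fun _ => a := Measure.map_congr h5
  simpa using h6

end Pool.Agent.Lib.MP_7cef9e_pr
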