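import Pool.Agent.Lib.MP_7cef9e_pr.Defs

/-!
# The semicircle law: mass, support, Cauchy transform, free infinite divisibility
-/

namespace Pool.Agent.Lib.MP_7cef9e_pr

open MeasureTheory Filter Topology Real

/-- the semicircle density -/
noncomputable def rho (x : ℝ) : ℝ := √(4 - x ^ 2) / (2 * π)

lemma continuous_rho : Continuous rho := by unfold rho; fun_prop

lemma rho_nonneg (x : ℝ) : 0 ≤ rho x := by unfold rho; positivity

lemma rho_pos {x : ℝ} (hx : x ∈ Set.Ioo (-2 : ℝ) 2) : 0 < rho x := by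
  unfold rho
  exact div_pos (Real.sqrt_pos.mpr (by nlinarith [hx.1, hx.2])) (by positivity)

lemma rho_eq_zero {x : ℝ} (hx : x ∉ Set.Ioo (-2 : ℝ) 2) : rho x = 0 := by
  unfold rho
  rw [Real.sqrt_eq_zero_of_nonpos, zero_div]
  by_contra h
  exact hx ⟨by nlinarith, by nlinarith⟩

lemma integral_semicircle {E : Type*} [NormedAddCommGroup E] [NormedSpace ℝ E] (f : ℝ → E) :
    ∫ x, f x ∂semicircle = ∫ x in (-2 : ℝ)..2, rho x • f x := by
  have hm : Measurable fun x => ENNReal.ofReal (rho x) := continuous_rho.measurable.ennreal_ofReal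
  have := integral_withDensity_eq_integral_toReal_smul (μ := volume) hm
    (Eventually.of_forall fun _ => ENNReal.ofReal_lt_top) f
  simp only [ENNReal.toReal_ofReal (rho_nonneg _)] at this
  rw [intervalIntegral.integral_eq_integral_of_support_subset, ← this]
  · rfl
  · intro x hx
    by_contra h
    exact hx (by simp [rho_eq_zero (fun h' => h (Set.Ioo_subset_Ioc_self h'))])

lemma integral_subst {f : ℝ → ℂ} (hf : ∀ θ, ContinuousAt f (2 * cos θ)) :
    ∫ x in (-2 : ℝ)..2, rho x • f x = ∫ θ in (0 : ℝ)..π, (2 / π * sin θ ^ 2) • f (2 * cos θ) := by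
  have h := intervalIntegral.integral_deriv_smul_comp' (a := 0) (b := π) (f := fun θ => 2 * cos θ)
    (f' := fun θ => 2 * -sin θ) (g := fun x => rho x • f x)
    (fun θ _ => (hasDerivAt_cos θ).const_mul 2) (by fun_prop) (by
      rintro _ ⟨θ, -, rfl⟩
      exact (continuous_rho.continuousAt.smul (hf θ)).continuousWithinAt)
  simp only [cos_zero, cos_pi, mul_one, mul_neg] at h
  rw [intervalIntegral.integral_symm, ← h, ← intervalIntegral.integral_neg]
  refine intervalIntegral.integral_congr fun θ hθ => ?_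
  rw [Set.uIcc_of_le pi_pos.le] at hθ
  have hs : 0 ≤ sin θ := sin_nonneg_of_mem_Icc hθ
  have : rho (2 * cos θ) = sin θ / π := by
    unfold rho
    rw [show 4 - (2 * cos θ) ^ 2 = (2 * sin θ) ^ 2 by nlinarith [sin_sq_add_cos_sq θ],
      Real.sqrt_sq (by positivity)]
    field_simp
  simp only [Function.comp, this, smul_smul, ← neg_smul]
  congr 1
  field_simp

lemma integral_rho : ∫ x in (-2 : ℝ)..2, rho x = 1 := by
  have h := integral_subst (f := fun _ => 1) fun _ => continuousAt_const
  simp only [Complex.real_smul, mul_one, intervalIntegral.integral_ofReal] at h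
  rw [Complex.ofReal_injective h, intervalIntegral.integral_const_mul, integral_sin_sq]
  simp only [sin_zero, cos_zero, sin_pi, cos_pi]
  field_simp
  ring

lemma integrable_rho : Integrable rho := by
  refine continuous_rho.integrable_of_hasCompactSupport
    (HasCompactSupport.intro (isCompact_Icc (a := -2) (b := 2)) fun x hx => rho_eq_zero fun h => ?_)
  exact hx (Set.Ioo_subset_Icc_self h)

instance isProb_semicircle : IsProbabilityMeasure semicircle := by
  have : IsFiniteMeasure semicircle := isFiniteMeasure_withDensity_ofReal integrable_rho.2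
  have h := integral_semicircle (fun _ => (1 : ℝ))
  simp only [smul_eq_mul, mul_one, integral_rho, integral_const] at h
  exact isProbabilityMeasure_iff_real.mpr h

lemma semicircle_apply_eq_zero {s : Set ℝ} :
    semicircle s = 0 ↔ volume (Set.Ioo (-2 : ℝ) 2 ∩ s) = 0 := by
  have hm : Measurable fun x => ENNReal.ofReal (rho x) := continuous_rho.measurable.ennreal_ofReal
  have : {x | ENNReal.ofReal (rho x) ≠ 0} = Set.Ioo (-2 : ℝ) 2 := by
    ext x
    simp only [ne_eq, ENNReal.ofReal_eq_zero, not_le, Set.mem_ofPred_eq]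
    exact ⟨fun h => by by_contra h'; exact h.ne' (rho_eq_zero h'), rho_pos⟩
  rw [← this]
  exact withDensity_apply_eq_zero hm

lemma Icc_mem_ae : Set.Icc (-2 : ℝ) 2 ∈ ae semicircle := by
  rw [mem_ae_iff, semicircle_apply_eq_zero]
  have : Set.Ioo (-2 : ℝ) 2 ∩ (Set.Icc (-2 : ℝ) 2)ᶜ = ∅ :=
    Set.eq_empty_of_forall_notMem fun x hx => hx.2 (Set.Ioo_subset_Icc_self hx.1)
  rw [this, measure_empty]

lemma support_semicircle : semicircle.support = Set.Icc (-2 : ℝ) 2 := by
  refine Set.Subset.antisymm (Measure.support_subset_of_isClosed isClosed_Icc Icc_mem_ae) ?_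
  intro x hx
  rw [Measure.mem_support_iff_forall]
  intro U hU
  rw [pos_iff_ne_zero, ne_eq, semicircle_apply_eq_zero]
  obtain ⟨V, hVU, hV, hxV⟩ := mem_nhds_iff.mp hU
  rw [← closure_Ioo (by norm_num : (-2 : ℝ) ≠ 2)] at hx
  have hne : (Set.Ioo (-2 : ℝ) 2 ∩ V).Nonempty := by
    rw [Set.inter_comm]; exact mem_closure_iff.mp hx V hV hxV
  exact ((isOpen_Ioo.inter hV).measure_pos volume hne |>.trans_le
    (measure_mono (Set.inter_subset_inter_right _ hVU))).ne'

lemma cauchy_semicircle {z : ℂ} (hz0 : z ≠ 0) (hz : ‖z‖ < 1) :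
    cauchyTransform semicircle (z + 1 / z) = z := by
  let g : ℂ → ℂ := fun ζ => (ζ ^ 2 - 1) / (1 - z * ζ)
  have hne : ∀ ζ : ℂ, ‖ζ‖ ≤ 1 → 1 - z * ζ ≠ 0 := by
    intro ζ hζ h
    have h1 : ‖z * ζ‖ = 1 := by rw [← sub_eq_zero.mp h, norm_one]
    rw [norm_mul] at h1
    nlinarith [norm_nonneg z, norm_nonneg ζ]
  have hn : ∀ θ : ℝ, ‖circleMap 0 1 θ‖ ≤ 1 := fun θ => by simp
  have hinv : ∀ θ : ℝ, circleMap 0 1 θ * circleMap 0 1 (-θ) = 1 := fun θ => by
    simp [circleMap, ← Complex.exp_add]
  have hcos : ∀ θ : ℝ, ((2 * cos θ : ℝ) : ℂ) = circleMap 0 1 θ + circleMap 0 1 (-θ) := fun θ => by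
    simp [circleMap, Complex.two_cos]
  have hsin : ∀ θ : ℝ, ((sin θ ^ 2 : ℝ) : ℂ) =
      -(circleMap 0 1 θ - circleMap 0 1 (-θ)) ^ 2 / 4 := fun θ => by
    have h1 := hcos θ
    have h2 := hinv θ
    have h3 : ((sin θ ^ 2 : ℝ) : ℂ) = 1 - ((2 * cos θ : ℝ) : ℂ) ^ 2 / 4 := by
      rw [sin_sq]; push_cast; ring
    rw [h3, h1]
    linear_combination -h2
  have hfac : ∀ θ : ℝ, z + 1 / z - ((2 * cos θ : ℝ) : ℂ) =
      (1 - z * circleMap 0 1 θ) * (1 - z * circleMap 0 1 (-θ)) / z := fun θ => by
    rw [hcos]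
    field_simp
    linear_combination (-z ^ 2) * hinv θ
  have hgc : Continuous fun θ : ℝ => g (circleMap 0 1 θ) := by
    have := continuous_circleMap 0 1
    exact Continuous.div (by fun_prop) (by fun_prop) fun θ => hne _ (hn θ)
  have havg : Real.circleAverage g 0 1 = g 0 := by
    refine DiffContOnCl.circleAverage (DifferentiableOn.diffContOnCl ?_)
    rw [abs_one, closure_ball _ one_ne_zero]
    exact DifferentiableOn.div (by fun_prop) (by fun_prop) fun ζ hζ => hne ζ (by simpa using hζ)
  have hint : ∫ θ in (-π)..π, g (circleMap 0 1 θ) = -(2 * π) := by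
    rw [Real.circleAverage_eq_integral_add (-π),
      intervalIntegral.integral_comp_add_right (fun θ => g (circleMap 0 1 θ))] at havg
    rw [show (0 : ℝ) + -π = -π by ring, show 2 * π + -π = π by ring, Complex.real_smul] at havg
    have hpi : (π : ℂ) ≠ 0 := by exact_mod_cast pi_ne_zero
    have hg0 : g 0 = -1 := by simp [g]
    rw [hg0] at havg
    push_cast at havg
    field_simp at havg
    linear_combination havg
  unfold cauchyTransform
  rw [integral_semicircle, integral_subst]
  · have e : ∀ θ : ℝ, (2 / π * sin θ ^ 2) • (1 / (z + 1 / z - ((2 * cos θ : ℝ) : ℂ))) =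
        -(z / (2 * π)) * (g (circleMap 0 1 (-θ)) + g (circleMap 0 1 θ)) := by
      intro θ
      have h1 := hne _ (hn θ)
      have h2 := hne _ (hn (-θ))
      have hpi : (π : ℂ) ≠ 0 := by exact_mod_cast pi_ne_zero
      rw [hfac, Complex.real_smul, Complex.ofReal_mul, hsin]
      have h3 := hinv θ
      simp only [g]
      generalize circleMap 0 1 θ = a at h1 h3
      generalize circleMap 0 1 (-θ) = b at h2 h3
      have h4 : (b ^ 2 - 1) / (1 - z * b) + (a ^ 2 - 1) / (1 - z * a) =
          (a - b) ^ 2 / ((1 - z * a) * (1 - z * b)) := by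
        rw [div_add_div _ _ h2 h1, mul_comm (1 - z * b) (1 - z * a)]
        congr 1
        linear_combination (2 - z * (a + b)) * h3
      rw [h4]
      generalize (1 - z * a) = A at h1
      generalize (1 - z * b) = B at h2
      push_cast
      field_simp
      ring
    simp only [e]
    have hgc' : Continuous fun θ : ℝ => g (circleMap 0 1 (-θ)) := hgc.comp continuous_neg
    rw [intervalIntegral.integral_const_mul, intervalIntegral.integral_add
      (hgc'.intervalIntegrable _ _) (hgc.intervalIntegrable _ _),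
      intervalIntegral.integral_comp_neg (fun θ => g (circleMap 0 1 θ)), neg_zero,
      intervalIntegral.integral_add_adjacent_intervals (hgc.intervalIntegrable _ _)
        (hgc.intervalIntegrable _ _), hint]
    have hpi : (π : ℂ) ≠ 0 := by exact_mod_cast pi_ne_zero
    field_simp
  · intro θ
    refine ContinuousAt.div continuousAt_const (by fun_prop) ?_
    rw [hfac]
    exact div_ne_zero (mul_ne_zero (hne _ (hn _)) (hne _ (hn _))) hz0

lemma isRTransform_scaled {c : ℝ} (hc : 0 < c) :
    IsRTransform (semicircle.map fun x => c * x) fun z => (c : ℂ) ^ 2 * z := by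
  refine ⟨by fun_prop, ?_⟩
  have hc0 : (c : ℂ) ≠ 0 := by exact_mod_cast hc.ne'
  have h1 : ∀ᶠ z : ℂ in 𝓝 0, ‖(c : ℂ) * z‖ < 1 := by
    have : Tendsto (fun z : ℂ => ‖(c : ℂ) * z‖) (𝓝 0) (𝓝 ‖(c : ℂ) * 0‖) :=
      (by fun_prop : Continuous fun z : ℂ => ‖(c : ℂ) * z‖).tendsto 0
    exact this.eventually (gt_mem_nhds (by simp))
  filter_upwards [nhdsWithin_le_nhds h1, self_mem_nhdsWithin] with z hz hz0
  have hz0' : z ≠ 0 := hz0
  have h2 := cauchy_semicircle (mul_ne_zero hc0 hz0') hz
  unfold cauchyTransform at h2 ⊢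
  rw [integral_map (by fun_prop) (Measurable.aestronglyMeasurable (by fun_prop))]
  have e : ∀ x : ℝ, 1 / ((c : ℂ) ^ 2 * z + 1 / z - ((c * x : ℝ) : ℂ)) =
      (c : ℂ)⁻¹ * (1 / (c * z + 1 / (c * z) - x)) := by
    intro x
    have : (c : ℂ) ^ 2 * z + 1 / z - ((c * x : ℝ) : ℂ) = c * (c * z + 1 / (c * z) - x) := by
      push_cast; field_simp
    rw [this, one_div, mul_inv, one_div (_ - _ : ℂ)]
  simp only [e]
  rw [integral_const_mul, h2, ← mul_assoc, inv_mul_cancel₀ hc0, one_mul]

lemma isRTransform_semicircle : IsRTransform semicircle fun z => z := by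
  simpa using isRTransform_scaled one_pos

lemma isFreelyInfDiv_semicircle : IsFreelyInfDiv semicircle := by
  intro k hk
  have hk0 : (0 : ℝ) < k := by exact_mod_cast hk
  have hc : 0 < (√k)⁻¹ := inv_pos.mpr (Real.sqrt_pos.mpr hk0)
  set c := (√k)⁻¹ with hcdef
  refine ⟨semicircle.map fun x => c * x, Measure.isProbabilityMeasure_map (by fun_prop), ?_,
    _, isRTransform_scaled hc, ?_⟩
  · refine (isCompact_Icc (a := c * -2) (b := c * 2)).of_isClosed_subset Measure.isClosed_support
      (Measure.support_subset_of_isClosed isClosed_Icc ?_)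
    rw [mem_ae_map_iff (by fun_prop) measurableSet_Icc]
    filter_upwards [Icc_mem_ae] with x hx
    exact ⟨mul_le_mul_of_nonneg_left hx.1 hc.le, mul_le_mul_of_nonneg_left hx.2 hc.le⟩
  · have : (fun z : ℂ => (k : ℂ) * ((c : ℂ) ^ 2 * z)) = fun z => z := by
      funext z
      have h1 : (k : ℝ) * c ^ 2 = 1 := by
        rw [hcdef, inv_pow, Real.sq_sqrt hk0.le, mul_inv_cancel₀ hk0.ne']
      have h2 : (k : ℂ) * (c : ℂ) ^ 2 = 1 := by exact_mod_cast h1
      rw [← mul_assoc, h2, one_mul]
    rw [this]; exact isRTransform_semicircle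

end Pool.Agent.Lib.MP_7cef9e_pr
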