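import Pool.Agent.Lib.MP_7cef9e_pr.Hciz

/-!
# A triangular contour with a corner between the two largest eigenvalues
-/

namespace Pool.Agent.Lib.MP_7cef9e_pr

open MeasureTheory Filter Topology Complex

/-- integral along the segment from `p` to `p + d` -/
noncomputable def seg (f : ℂ → ℂ) (p d : ℂ) : ℂ := ∫ s in (0 : ℝ)..1, d * f (p + s * d)

/-- integral along the triangle with vertices `b`, `b - 8 + 8 i`, `b - 8 - 8 i` -/
noncomputable def tri (f : ℂ → ℂ) (b : ℝ) : ℂ :=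
  seg f b (-8 + 8 * I) + seg f (b + (-8 + 8 * I)) (-16 * I) - seg f b (-8 - 8 * I)

/-- the points of the triangle -/
def OnTri (b : ℝ) (w : ℂ) : Prop :=
  (∃ s : ℝ, 0 ≤ s ∧ w.re = b - s ∧ |w.im| = s) ∨ (w.re = b - 8 ∧ |w.im| ≤ 8)

lemma onTri_one (b : ℝ) {s : ℝ} (hs : s ∈ Set.uIcc (0 : ℝ) 1) :
    OnTri b (b + s * (-8 + 8 * I)) := by
  rw [Set.uIcc_of_le zero_le_one] at hs
  refine Or.inl ⟨8 * s, by linarith [hs.1], by simp; ring, ?_⟩
  simp [abs_mul, abs_of_nonneg hs.1, mul_comm]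

lemma onTri_two (b : ℝ) {s : ℝ} (hs : s ∈ Set.uIcc (0 : ℝ) 1) :
    OnTri b (b + (-8 + 8 * I) + s * (-16 * I)) := by
  rw [Set.uIcc_of_le zero_le_one] at hs
  refine Or.inr ⟨by simp; ring, ?_⟩
  simp only [add_im, ofReal_im, neg_im, im_ofNat, neg_zero, mul_im, re_ofNat, I_im, mul_one, I_re,
    mul_zero, add_zero, zero_add, neg_mul, mul_neg, ofReal_re, mul_re, sub_self]
  rw [abs_le]; constructor <;> linarith [hs.1, hs.2]

lemma onTri_three (b : ℝ) {s : ℝ} (hs : s ∈ Set.uIcc (0 : ℝ) 1) :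
    OnTri b (b + s * (-8 - 8 * I)) := by
  rw [Set.uIcc_of_le zero_le_one] at hs
  refine Or.inl ⟨8 * s, by linarith [hs.1], by simp; ring, ?_⟩
  simp [abs_mul, abs_of_nonneg hs.1, mul_comm]

lemma OnTri.re_le {b : ℝ} {w : ℂ} (h : OnTri b w) : w.re ≤ b := by
  rcases h with ⟨s, hs, h, -⟩ | ⟨h, -⟩ <;> linarith

lemma OnTri.ne {b a : ℝ} {w : ℂ} (h : OnTri b w) (h1 : a ≠ b) (h2 : b - 8 < a) : w ≠ a := by
  rintro rfl
  rcases h with ⟨s, hs, h, h'⟩ | ⟨h, -⟩
  · simp only [ofReal_re, ofReal_im, abs_zero] at h h'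
    exact h1 (by linarith)
  · simp only [ofReal_re] at h; linarith

lemma seg_primitive {f Φ : ℂ → ℂ} {p d : ℂ}
    (h : ∀ s ∈ Set.uIcc (0 : ℝ) 1, HasDerivAt Φ (f (p + s * d)) (p + s * d))
    (hc : ContinuousOn (fun s : ℝ => f (p + s * d)) (Set.uIcc 0 1)) :
    seg f p d = Φ (p + d) - Φ p := by
  have := intervalIntegral.integral_eq_sub_of_hasDerivAt (a := 0) (b := 1)
    (f := fun s : ℝ => Φ (p + s * d)) (f' := fun s : ℝ => d * f (p + s * d)) (fun s hs => by
      have h1 : HasDerivAt (fun s : ℝ => p + (s : ℂ) * d) d s := by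
        simpa using ((Complex.ofRealCLM.hasDerivAt (x := s)).mul_const d).const_add p
      exact ((h s hs).comp_of_eq s h1 rfl).congr_deriv (mul_comm _ _))
    (continuousOn_const.mul hc).intervalIntegrable
  simpa [seg] using this

lemma seg_cont {f : ℂ → ℂ} {b : ℝ} (hf : ContinuousOn f {w | OnTri b w}) {p d : ℂ}
    (h : ∀ s ∈ Set.uIcc (0 : ℝ) 1, OnTri b (p + s * d)) :
    ContinuousOn (fun s : ℝ => f (p + s * d)) (Set.uIcc 0 1) :=
  hf.comp (by fun_prop) h

lemma contOn_mul_inv {e : ℂ → ℂ} (he : Continuous e) {a b : ℝ} (h1 : a ≠ b) (h2 : b - 8 < a) :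
    ContinuousOn (fun w => e w * (w - a)⁻¹) {w | OnTri b w} :=
  he.continuousOn.mul (ContinuousOn.inv₀ (by fun_prop) fun _ hw => sub_ne_zero.mpr (hw.ne h1 h2))

lemma exists_primitives {e : ℂ → ℂ} (he : Differentiable ℂ e) (a : ℂ) :
    ∃ Φ : ℂ → ℂ,
      (∀ w, w - a ∈ slitPlane → HasDerivAt (fun w => Φ w + e a * log (w - a)) (e w * (w - a)⁻¹) w) ∧
      (∀ w, a - w ∈ slitPlane → HasDerivAt (fun w => Φ w + e a * log (a - w)) (e w * (w - a)⁻¹) w) := by
  have hg : Differentiable ℂ (dslope e a) := by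
    rw [← differentiableOn_univ, Complex.differentiableOn_dslope univ_mem]
    exact he.differentiableOn
  obtain ⟨Φ, hΦ⟩ := hg.isExactOn_univ
  refine ⟨Φ, fun w hw => ?_, fun w hw => ?_⟩
  · have hne : w - a ≠ 0 := slitPlane_ne_zero hw
    refine ((hΦ w trivial).add ((((hasDerivAt_id w).sub_const a).clog hw).const_mul
      (e a))).congr_deriv ?_
    have := sub_smul_dslope e a w
    rw [smul_eq_mul] at this
    simp only [id]
    field_simp
    linear_combination this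
  · have hne : w - a ≠ 0 := fun h => slitPlane_ne_zero hw (by linear_combination -h)
    have hne' : a - w ≠ 0 := slitPlane_ne_zero hw
    refine ((hΦ w trivial).add ((((hasDerivAt_id w).const_sub a).clog hw).const_mul
      (e a))).congr_deriv ?_
    have := sub_smul_dslope e a w
    rw [smul_eq_mul] at this
    simp only [id]
    field_simp
    linear_combination (a - w) * this

lemma tri_outside {e : ℂ → ℂ} (he : Differentiable ℂ e) {a b : ℝ} (h : b < a) :
    tri (fun w => e w * (w - a)⁻¹) b = 0 := by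
  obtain ⟨Φ, -, h2⟩ := exists_primitives he a
  have hc := contOn_mul_inv he.continuous h.ne' (by linarith : b - 8 < a)
  have hs : ∀ w, OnTri b w → (a : ℂ) - w ∈ slitPlane := fun w hw =>
    Or.inl (by simp only [sub_re, ofReal_re]; linarith [hw.re_le])
  rw [tri, seg_primitive (fun s hs' => h2 _ (hs _ (onTri_one b hs'))) (seg_cont hc (fun _ => onTri_one b)),
    seg_primitive (fun s hs' => h2 _ (hs _ (onTri_two b hs'))) (seg_cont hc (fun _ => onTri_two b)),
    seg_primitive (fun s hs' => h2 _ (hs _ (onTri_three b hs')))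
      (seg_cont hc (fun _ => onTri_three b))]
  have : (b : ℂ) + (-8 + 8 * I) + -16 * I = b + (-8 - 8 * I) := by ring
  rw [this]; ring

lemma tri_inside {e : ℂ → ℂ} (he : Differentiable ℂ e) {a b : ℝ} (h : a < b) (h' : b - 8 < a) :
    tri (fun w => e w * (w - a)⁻¹) b = 2 * Real.pi * I * e a := by
  obtain ⟨Φ, h1, h2⟩ := exists_primitives he a
  have hc := contOn_mul_inv he.continuous h.ne h'
  have hs1 : ∀ (s : ℝ) (d : ℂ), d.im ≠ 0 → (b : ℂ) + s * d - a ∈ slitPlane := by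
    intro s d hd
    by_cases hs : s = 0
    · left; simp [hs, h]
    · right; simp [hs, hd]
  have hs2 : ∀ s : ℝ, (a : ℂ) - (b + (-8 + 8 * I) + s * (-16 * I)) ∈ slitPlane := by
    intro s; left; simp; linarith
  rw [tri, seg_primitive (fun s _ => h1 _ (hs1 s _ (by simp))) (seg_cont hc (fun _ => onTri_one b)),
    seg_primitive (fun s _ => h2 _ (hs2 s)) (seg_cont hc (fun _ => onTri_two b)),
    seg_primitive (fun s _ => h1 _ (hs1 s _ (by simp))) (seg_cont hc (fun _ => onTri_three b))]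
  have : (b : ℂ) + (-8 + 8 * I) + -16 * I = b + (-8 - 8 * I) := by ring
  rw [this]
  have l1 : log ((a : ℂ) - (b + (-8 + 8 * I))) = log ((b + (-8 + 8 * I)) - a) - Real.pi * I := by
    rw [← neg_sub ((b : ℂ) + (-8 + 8 * I)), log, log, norm_neg,
      arg_neg_eq_arg_sub_pi_of_im_pos (by simp)]
    push_cast; ring
  have l2 : log ((a : ℂ) - (b + (-8 - 8 * I))) = log ((b + (-8 - 8 * I)) - a) + Real.pi * I := by
    rw [← neg_sub ((b : ℂ) + (-8 - 8 * I)), log, log, norm_neg,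
      arg_neg_eq_arg_add_pi_of_im_neg (by simp)]
    push_cast; ring
  rw [l1, l2]; ring

lemma seg_sum {ι : Type*} (s : Finset ι) (c : ι → ℂ) {f : ι → ℂ → ℂ} {g : ℂ → ℂ} {b : ℝ}
    (hf : ∀ i ∈ s, ContinuousOn (f i) {w | OnTri b w})
    (hg : ∀ w, OnTri b w → g w = ∑ i ∈ s, c i * f i w) {p d : ℂ}
    (h : ∀ s ∈ Set.uIcc (0 : ℝ) 1, OnTri b (p + s * d)) :
    seg g p d = ∑ i ∈ s, c i * seg (f i) p d := by
  simp only [seg, ← intervalIntegral.integral_const_mul]
  rw [← intervalIntegral.integral_finsetSum (f := fun i (x : ℝ) => c i * (d * f i (p + x * d)))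
    fun i hi => (continuousOn_const.mul
    (continuousOn_const.mul (seg_cont (hf i hi) h))).intervalIntegrable]
  refine intervalIntegral.integral_congr fun x hx => ?_
  simp only [hg _ (h x hx), Finset.mul_sum]
  exact Finset.sum_congr rfl fun i _ => by ring

lemma tri_sum {ι : Type*} (s : Finset ι) (c : ι → ℂ) {f : ι → ℂ → ℂ} {g : ℂ → ℂ} {b : ℝ}
    (hf : ∀ i ∈ s, ContinuousOn (f i) {w | OnTri b w})
    (hg : ∀ w, OnTri b w → g w = ∑ i ∈ s, c i * f i w) :
    tri g b = ∑ i ∈ s, c i * tri (f i) b := by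
  rw [tri, seg_sum s c hf hg (fun _ => onTri_one b), seg_sum s c hf hg (fun _ => onTri_two b),
    seg_sum s c hf hg (fun _ => onTri_three b), ← Finset.sum_add_distrib, ← Finset.sum_sub_distrib]
  exact Finset.sum_congr rfl fun i _ => by rw [tri]; ring

lemma norm_seg_le {f : ℂ → ℂ} {b B : ℝ} (hB : ∀ w, OnTri b w → ‖f w‖ ≤ B) {p d : ℂ}
    (h : ∀ s ∈ Set.uIcc (0 : ℝ) 1, OnTri b (p + s * d)) (hd : ‖d‖ ≤ 16) : ‖seg f p d‖ ≤ 16 * B := by
  have := intervalIntegral.norm_integral_le_of_norm_le_const (a := 0) (b := 1) (C := 16 * B)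
    (f := fun s : ℝ => d * f (p + s * d)) fun s hs => by
      rw [norm_mul]
      exact mul_le_mul hd (hB _ (h s (Set.uIoc_subset_uIcc hs))) (norm_nonneg _) (by norm_num)
  simpa [seg] using this

lemma norm_tri_le {f : ℂ → ℂ} {b B : ℝ} (hB : ∀ w, OnTri b w → ‖f w‖ ≤ B) :
    ‖tri f b‖ ≤ 48 * B := by
  have h1 := norm_seg_le hB (fun _ => onTri_one b)
    ((norm_add_le _ _).trans (by simp; norm_num))
  have h2 := norm_seg_le hB (fun _ => onTri_two b) (by simp)
  have h3 := norm_seg_le hB (fun _ => onTri_three b)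
    ((norm_sub_le _ _).trans (by simp; norm_num))
  rw [tri]
  refine (norm_sub_le _ _).trans ?_
  linarith [norm_add_le (seg f b (-8 + 8 * I)) (seg f (b + (-8 + 8 * I)) (-16 * I))]

variable {n : ℕ}

lemma norm_sum_succ_le {lam : Fin (n + 1) → ℝ} (hinj : Function.Injective lam) {b B : ℝ}
    (h0 : b < lam 0) (h1 : ∀ j : Fin n, lam j.succ < b) (h2 : ∀ j : Fin n, b - 8 < lam j.succ)
    {e : ℂ → ℂ} (he : Differentiable ℂ e)
    (hB : ∀ w, OnTri b w → ‖e w * ∏ i, (w - lam i)⁻¹‖ ≤ B) :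
    ‖∑ j : Fin n, Lagrange.nodalWeight Finset.univ (fun i => (lam i : ℂ)) j.succ *
      e (lam j.succ)‖ ≤ 8 * B := by
  have hne : ∀ i, lam i ≠ b ∧ b - 8 < lam i := fun i => by
    refine Fin.cases ⟨h0.ne', by linarith⟩ (fun j => ⟨(h1 j).ne, h2 j⟩) i
  have hB0 : 0 ≤ B := (norm_nonneg _).trans (hB b (Or.inl ⟨0, le_rfl, by simp, by simp⟩))
  have key := tri_sum Finset.univ (Lagrange.nodalWeight Finset.univ (fun i => (lam i : ℂ)))
    (f := fun i w => e w * (w - lam i)⁻¹) (g := fun w => e w * ∏ i, (w - lam i)⁻¹) (b := b)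
    (fun i _ => contOn_mul_inv he.continuous (hne i).1 (hne i).2) (fun w hw => by
      rw [partial_fraction (v := fun i => (lam i : ℂ))
        (fun i _ j _ hij => hinj (Complex.ofReal_injective hij)) Finset.univ_nonempty
        (fun i _ => hw.ne (hne i).1 (hne i).2), Finset.mul_sum]
      exact Finset.sum_congr rfl fun i _ => by ring)
  rw [Fin.sum_univ_succ, tri_outside he h0, mul_zero, zero_add] at key
  simp only [tri_inside he (h1 _) (h2 _)] at key
  have hb := norm_tri_le hB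
  have e2 : ∑ j : Fin n, Lagrange.nodalWeight Finset.univ (fun i => (lam i : ℂ)) j.succ *
      (2 * Real.pi * I * e (lam j.succ)) = 2 * Real.pi * I *
      ∑ j : Fin n, Lagrange.nodalWeight Finset.univ (fun i => (lam i : ℂ)) j.succ *
        e (lam j.succ) := by
    rw [Finset.mul_sum]; exact Finset.sum_congr rfl fun i _ => by ring
  rw [key, e2, norm_mul] at hb
  have e3 : ‖(2 * Real.pi * I : ℂ)‖ = 2 * Real.pi := by simp [abs_of_pos Real.pi_pos]
  rw [e3] at hb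
  have := Real.pi_gt_three
  nlinarith [norm_nonneg (∑ j : Fin n, Lagrange.nodalWeight Finset.univ (fun i => (lam i : ℂ))
    j.succ * e (lam j.succ))]

lemma ray_bound {d s : ℝ} (hd : 0 < d) (hs : 0 ≤ s) {w : ℂ} (h1 : w.re = d - s) (h2 : |w.im| = s) :
    ‖w⁻¹‖ ≤ d⁻¹ * Real.exp (2 * s * d⁻¹) := by
  set u := s * d⁻¹ with hu
  have hu0 : 0 ≤ u := by positivity
  have hsu : s = u * d := by rw [hu]; field_simp
  have hn : ‖w‖ ^ 2 = d ^ 2 * (1 - 2 * u + 2 * u ^ 2) := by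
    rw [Complex.sq_norm, normSq_apply, ← abs_mul_abs_self w.im, h1, h2, hsu]; ring
  have he : 1 + 4 * u ≤ Real.exp (2 * u) ^ 2 := by
    rw [← Real.exp_nat_mul]
    have := Real.add_one_le_exp (4 * u)
    push_cast
    rw [show 2 * (2 * u) = 4 * u by ring]; linarith
  have hq : 0 < 1 - 2 * u + 2 * u ^ 2 := by nlinarith [sq_nonneg (2 * u - 1)]
  have h3 : d ^ 2 ≤ (‖w‖ * Real.exp (2 * u)) ^ 2 := by
    rw [mul_pow, hn]
    have : 1 ≤ (1 - 2 * u + 2 * u ^ 2) * (1 + 4 * u) := by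
      nlinarith [mul_nonneg hu0 (sq_nonneg (8 * u - 3))]
    calc d ^ 2 = d ^ 2 * 1 := by ring
      _ ≤ d ^ 2 * ((1 - 2 * u + 2 * u ^ 2) * (1 + 4 * u)) := by gcongr
      _ ≤ d ^ 2 * ((1 - 2 * u + 2 * u ^ 2) * Real.exp (2 * u) ^ 2) := by gcongr
      _ = _ := by ring
  have h4 : d ≤ ‖w‖ * Real.exp (2 * u) := by
    exact (pow_le_pow_iff_left₀ hd.le (by positivity) two_ne_zero).mp h3
  have hw : 0 < ‖w‖ := by
    rcases (norm_nonneg w).eq_or_lt with h | h
    · rw [← h, zero_mul] at h4; linarith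
    · exact h
  rw [norm_inv, mul_assoc, ← hu, inv_mul_eq_div, inv_eq_one_div, div_le_div_iff₀ hw hd]
  linarith

lemma exp_prod_bound {lam : Fin (n + 1) → ℝ} {b : ℝ} (h1 : ∀ j : Fin n, lam j.succ < b)
    (h2 : ∀ j : Fin n, b - 4 ≤ lam j.succ) {t : ℂ}
    (ht : 2 * ∑ j : Fin n, (b - lam j.succ)⁻¹ ≤ t.re - |t.im|) {w : ℂ} (hw : OnTri b w) :
    ‖exp (t * w) * ∏ j : Fin n, (w - lam j.succ)⁻¹‖ ≤
      Real.exp (t.re * b) * ∏ j : Fin n, (b - lam j.succ)⁻¹ := by
  have hd : ∀ j : Fin n, 0 < b - lam j.succ := fun j => by linarith [h1 j]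
  have hK : 0 ≤ ∑ j : Fin n, (b - lam j.succ)⁻¹ :=
    Finset.sum_nonneg fun j _ => (inv_pos.mpr (hd j)).le
  have hP : 0 ≤ ∏ j : Fin n, (b - lam j.succ)⁻¹ :=
    Finset.prod_nonneg fun j _ => (inv_pos.mpr (hd j)).le
  have him : -(t.im * w.im) ≤ |t.im| * |w.im| := by rw [← abs_mul]; exact neg_le_abs _
  rw [norm_mul, norm_exp, norm_prod, mul_re]
  rcases hw with ⟨s, hs, hre, hi⟩ | ⟨hre, hi⟩
  · have : ∏ j : Fin n, ‖(w - lam j.succ)⁻¹‖ ≤
        ∏ j : Fin n, ((b - lam j.succ)⁻¹ * Real.exp (2 * s * (b - lam j.succ)⁻¹)) :=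
      Finset.prod_le_prod (fun _ _ => norm_nonneg _) fun j _ =>
        ray_bound (hd j) hs (by simp [hre]; ring) (by simpa using hi)
    rw [Finset.prod_mul_distrib, ← Real.exp_sum, ← Finset.mul_sum] at this
    calc _ ≤ Real.exp (t.re * w.re - t.im * w.im) * ((∏ j : Fin n, (b - lam j.succ)⁻¹) *
          Real.exp (2 * s * ∑ j : Fin n, (b - lam j.succ)⁻¹)) := by gcongr
      _ = Real.exp (t.re * w.re - t.im * w.im + 2 * s * ∑ j : Fin n, (b - lam j.succ)⁻¹) *
          ∏ j : Fin n, (b - lam j.succ)⁻¹ := by rw [Real.exp_add]; ring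
      _ ≤ _ := by
          gcongr
          rw [hre]; rw [hi] at him
          nlinarith [mul_le_mul_of_nonneg_left ht hs]
  · refine mul_le_mul (Real.exp_le_exp.mpr ?_) (Finset.prod_le_prod (fun _ _ => norm_nonneg _)
      fun j _ => ?_) (Finset.prod_nonneg fun _ _ => norm_nonneg _) (Real.exp_pos _).le
    · rw [hre]
      nlinarith [mul_le_mul_of_nonneg_left hi (abs_nonneg t.im)]
    · rw [norm_inv]
      refine inv_anti₀ (hd j) ?_
      refine le_trans ?_ (abs_re_le_norm _)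
      rw [sub_re, ofReal_re, hre]
      refine le_trans ?_ (neg_le_abs _)
      linarith [h2 j]

lemma core_estimate {lam : Fin (n + 1) → ℝ} (hinj : Function.Injective lam) {b : ℝ}
    (h0 : b < lam 0) (h1 : ∀ j : Fin n, lam j.succ < b)
    (h2 : ∀ j : Fin n, b - 4 ≤ lam j.succ) {t : ℂ}
    (ht : 2 * ∑ j : Fin n, (b - lam j.succ)⁻¹ ≤ t.re - |t.im|) {η : ℝ}
    (hη : Real.exp (-(lam 0 - b) * (t.re - ∑ j : Fin n, (b - lam j.succ)⁻¹)) ≤ η)
    (hsmall : 16 * η ≤ lam 0 - b) :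
    (∑ i, Lagrange.nodalWeight Finset.univ (fun i => (lam i : ℂ)) i * exp (t * lam i)) ≠ 0 ∧
    ‖(∑ i, Lagrange.nodalWeight Finset.univ (fun i => (lam i : ℂ)) i * (exp (t * lam i) * lam i)) /
      (∑ i, Lagrange.nodalWeight Finset.univ (fun i => (lam i : ℂ)) i * exp (t * lam i)) - lam 0‖
      ≤ 16 * η := by
  set c := Lagrange.nodalWeight Finset.univ (fun i => (lam i : ℂ)) with hc
  set δ := lam 0 - b with hδ
  have hδ0 : 0 < δ := by linarith
  have hd : ∀ j : Fin n, 0 < b - lam j.succ := fun j => by linarith [h1 j]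
  set B := Real.exp (t.re * b) * ∏ j : Fin n, (b - lam j.succ)⁻¹ with hB
  set M := c 0 * exp (t * lam 0) with hM
  have hc0 : c 0 = ∏ j : Fin n, ((lam 0 : ℂ) - lam j.succ)⁻¹ := by
    rw [hc, Lagrange.nodalWeight, Fin.univ_succ, Finset.erase_cons, Finset.prod_map]; rfl
  have hMn : ‖M‖ = Real.exp (t.re * lam 0) * ∏ j : Fin n, (lam 0 - lam j.succ)⁻¹ := by
    rw [hM, norm_mul, hc0, norm_prod, norm_exp, mul_comm, re_mul_ofReal]
    congr 1
    refine Finset.prod_congr rfl fun j _ => ?_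
    rw [norm_inv, ← ofReal_sub, norm_real, Real.norm_of_nonneg (by linarith [h1 j])]
  have hMp : 0 < ‖M‖ := by
    rw [hMn]
    exact mul_pos (Real.exp_pos _) (Finset.prod_pos fun j _ => inv_pos.mpr (by linarith [h1 j]))
  have hBM : B ≤ η * ‖M‖ := by
    have h3 : ∏ j : Fin n, (b - lam j.succ)⁻¹ ≤
        ∏ j : Fin n, (Real.exp (δ * (b - lam j.succ)⁻¹) * (lam 0 - lam j.succ)⁻¹) := by
      refine Finset.prod_le_prod (fun j _ => (inv_pos.mpr (hd j)).le) fun j _ => ?_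
      have h4 := Real.add_one_le_exp (δ * (b - lam j.succ)⁻¹)
      have h5 : 0 < lam 0 - lam j.succ := by linarith [h1 j]
      have h6 := hd j
      calc (b - lam j.succ)⁻¹ = (δ * (b - lam j.succ)⁻¹ + 1) * (lam 0 - lam j.succ)⁻¹ := by
            rw [hδ]; field_simp; ring
        _ ≤ _ := by gcongr
    rw [Finset.prod_mul_distrib, ← Real.exp_sum, ← Finset.mul_sum] at h3
    have hP : 0 ≤ ∏ j : Fin n, (lam 0 - lam j.succ)⁻¹ :=
      Finset.prod_nonneg fun j _ => (inv_pos.mpr (by linarith [h1 j])).le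
    calc B ≤ Real.exp (t.re * b) * (Real.exp (δ * ∑ j : Fin n, (b - lam j.succ)⁻¹) *
          ∏ j : Fin n, (lam 0 - lam j.succ)⁻¹) := by rw [hB]; gcongr
      _ = Real.exp (-δ * (t.re - ∑ j : Fin n, (b - lam j.succ)⁻¹)) * ‖M‖ := by
          rw [hMn, ← mul_assoc, ← mul_assoc, ← Real.exp_add, ← Real.exp_add]
          congr 2; rw [hδ]; ring
      _ ≤ _ := by gcongr
  have h2' : ∀ j : Fin n, b - 8 < lam j.succ := fun j => by linarith [h2 j]
  have hR := norm_sum_succ_le hinj h0 h1 h2' (e := fun w => exp (t * w)) (B := δ⁻¹ * B)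
    (by fun_prop) (fun w hw => by
      rw [Fin.prod_univ_succ, mul_left_comm, norm_mul]
      refine mul_le_mul ?_ (exp_prod_bound h1 h2 ht hw) (norm_nonneg _) (inv_pos.mpr hδ0).le
      rw [norm_inv]
      refine inv_anti₀ hδ0 (le_trans ?_ (abs_re_le_norm _))
      rw [sub_re, ofReal_re]
      refine le_trans ?_ (neg_le_abs _)
      linarith [hw.re_le])
  have hG := norm_sum_succ_le hinj h0 h1 h2' (e := fun w => exp (t * w) * (w - lam 0)) (B := B)
    (by fun_prop) (fun w hw => by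
      have : w - lam 0 ≠ 0 := sub_ne_zero.mpr (hw.ne h0.ne' (by linarith))
      rw [Fin.prod_univ_succ, mul_assoc, ← mul_assoc (w - lam 0), mul_inv_cancel₀ this, one_mul]
      exact exp_prod_bound h1 h2 ht hw)
  rw [← hc] at hR hG
  set F := ∑ i, c i * exp (t * lam i) with hF
  have hFM : ‖M‖ / 2 ≤ ‖F‖ := by
    have e1 : M = F - ∑ j : Fin n, c j.succ * exp (t * lam j.succ) := by
      rw [hF, Fin.sum_univ_succ, hM]; ring
    have e2 : ‖M‖ ≤ ‖F‖ + ‖∑ j : Fin n, c j.succ * exp (t * lam j.succ)‖ := by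
      conv_lhs => rw [e1]
      exact norm_sub_le _ _
    have e3 : 8 * (δ⁻¹ * B) ≤ ‖M‖ / 2 := by
      calc 8 * (δ⁻¹ * B) ≤ 8 * (δ⁻¹ * (η * ‖M‖)) := by gcongr
        _ = (16 * η) * (δ⁻¹ * ‖M‖ / 2) := by ring
        _ ≤ δ * (δ⁻¹ * ‖M‖ / 2) := by gcongr
        _ = _ := by field_simp
    linarith
  have hF0 : F ≠ 0 := by
    intro h; rw [h, norm_zero] at hFM; linarith
  refine ⟨hF0, ?_⟩
  have e4 : (∑ i, c i * (exp (t * lam i) * lam i)) / F - lam 0 =
      (∑ j : Fin n, c j.succ * (exp (t * lam j.succ) * (lam j.succ - lam 0))) / F := by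
    rw [div_sub' hF0]
    congr 1
    rw [hF, Finset.sum_mul, ← Finset.sum_sub_distrib, Fin.sum_univ_succ]
    simp only [mul_sub, mul_assoc, sub_self, zero_add]
  rw [e4, norm_div, div_le_iff₀ (by linarith)]
  have hη0 : 0 ≤ η := (Real.exp_pos _).le.trans hη
  calc _ ≤ 8 * B := hG
    _ ≤ 8 * (η * ‖M‖) := by gcongr
    _ = 16 * η * (‖M‖ / 2) := by ring
    _ ≤ _ := by gcongr

end Pool.Agent.Lib.MP_7cef9e_pr
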